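import Pool.Agent.Helper57.Reg.Cross

/-!
# Vanishing of the winding function off a polynomially convex set
-/

set_option autoImplicit false

namespace Pool.Agent.Helper57.Reg

open Filter MeasureTheory Metric Set Topology
open scoped ComplexConjugate

/-- points at distance more than `r` from `X` -/
def OO (X : Set ℂ) (r : ℝ) : Set ℂ := {u | r < infDist u X}

/-- the component of a base point -/
def GG (X : Set ℂ) (p₀ : ℂ) (r : ℝ) : Set ℂ := connectedComponentIn (OO X r) p₀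

lemma isOpen_OO (X : Set ℂ) (r : ℝ) : IsOpen (OO X r) :=
  isOpen_lt continuous_const (continuous_infDist_pt X)

lemma isOpen_GG (X : Set ℂ) (p₀ : ℂ) (r : ℝ) : IsOpen (GG X p₀ r) := (isOpen_OO X r).connectedComponentIn

lemma GG_preconnected (X : Set ℂ) (p₀ : ℂ) (r : ℝ) : IsPreconnected (GG X p₀ r) :=
  isPreconnected_connectedComponentIn

lemma GG_subset (X : Set ℂ) (p₀ : ℂ) (r : ℝ) : GG X p₀ r ⊆ OO X r := connectedComponentIn_subset _ _

lemma infDist_ge {X : Set ℂ} (hne : X.Nonempty) {R : ℝ} (hR : X ⊆ closedBall 0 R) (u : ℂ) :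
    ‖u‖ - R ≤ infDist u X := by
  rw [le_infDist hne]
  intro x hx
  have h1 := hR hx
  rw [mem_closedBall, dist_zero_right] at h1
  have h2 : ‖u‖ ≤ dist u x + ‖x‖ := by
    rw [dist_eq_norm]
    have := norm_add_le (u - x) x
    rwa [sub_add_cancel] at this
  linarith

lemma far_mem_GG {X : Set ℂ} (hne : X.Nonempty) {R : ℝ} (hR0 : 0 ≤ R) (hR : X ⊆ closedBall 0 R) {r : ℝ}
    (hr1 : r ≤ 1) {t : ℝ} (ht : R + 2 ≤ t) : (t : ℂ) ∈ GG X ((R + 2 : ℝ) : ℂ) r := by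
  have hpre : IsPreconnected ((fun t : ℝ => (t : ℂ)) '' Ici (R + 2)) :=
    (isPreconnected_Ici).image _ Complex.continuous_ofReal.continuousOn
  have hsub : ((fun t : ℝ => (t : ℂ)) '' Ici (R + 2)) ⊆ OO X r := by
    rintro _ ⟨s, hs, rfl⟩
    have hs' : R + 2 ≤ s := hs
    have h1 := infDist_ge hne hR (s : ℂ)
    rw [Complex.norm_real, Real.norm_eq_abs, abs_of_nonneg (by linarith)] at h1
    have h2 : r < infDist (s : ℂ) X := by linarith
    exact h2
  exact hpre.subset_connectedComponentIn ⟨R + 2, mem_Ici.2 le_rfl, rfl⟩ hsub ⟨t, ht, rfl⟩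

lemma GG_anti {X : Set ℂ} {p₀ : ℂ} {r r' : ℝ} (h : r ≤ r') : GG X p₀ r' ⊆ GG X p₀ r := by
  apply connectedComponentIn_mono
  intro u hu
  have hu' : r' < infDist u X := hu
  have : r < infDist u X := by linarith
  exact this

lemma mem_GG_of_compl {X : Set ℂ} (hX : IsCompact X) (hne : X.Nonempty) {R : ℝ} (hR0 : 0 ≤ R)
    (hR : X ⊆ closedBall 0 R) (hconn : IsConnected Xᶜ) {s : ℂ} (hs : s ∈ Xᶜ) :
    ∃ r : ℝ, 0 < r ∧ r ≤ 1 ∧ s ∈ GG X ((R + 2 : ℝ) : ℂ) r := by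
  have hopen : IsOpen Xᶜ := hX.isClosed.isOpen_compl
  have hpc : IsPathConnected Xᶜ := (hopen.isConnected_iff_isPathConnected).1 hconn
  have hp₀ : ((R + 2 : ℝ) : ℂ) ∈ Xᶜ := by
    intro h
    have h1 := hR h
    rw [mem_closedBall, dist_zero_right, Complex.norm_real, Real.norm_eq_abs,
      abs_of_nonneg (by linarith)] at h1
    linarith
  obtain ⟨γ, hγ⟩ := hpc.joinedIn _ hp₀ _ hs
  have hK : IsCompact (range γ) := isCompact_range γ.continuous
  have hKne : (range γ).Nonempty := ⟨_, mem_range_self 0⟩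
  obtain ⟨u₀, hu₀, hmin⟩ := hK.exists_isMinOn hKne (continuous_infDist_pt X).continuousOn
  have hpos : 0 < infDist u₀ X := by
    obtain ⟨t, rfl⟩ := hu₀
    exact (hX.isClosed.notMem_iff_infDist_pos hne).1 (hγ t)
  refine ⟨min (infDist u₀ X / 2) 1, lt_min (by positivity) one_pos, min_le_right _ _, ?_⟩
  have hsub : range γ ⊆ OO X (min (infDist u₀ X / 2) 1) := by
    intro u hu
    have h1 : infDist u₀ X ≤ infDist u X := hmin hu
    have h2 : min (infDist u₀ X / 2) 1 ≤ infDist u₀ X / 2 := min_le_left _ _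
    have h3 : min (infDist u₀ X / 2) 1 < infDist u X := by linarith
    exact h3
  have hpre : IsPreconnected (range γ) := isPreconnected_range γ.continuous
  have h0 : ((R + 2 : ℝ) : ℂ) ∈ range γ := ⟨0, γ.source⟩
  have h1 : s ∈ range γ := ⟨1, γ.target⟩
  exact hpre.subset_connectedComponentIn h0 hsub h1

lemma cover {X : Set ℂ} (hX : IsCompact X) (hne : X.Nonempty) {R : ℝ} (hR0 : 0 ≤ R)
    (hR : X ⊆ closedBall 0 R) (hconn : IsConnected Xᶜ) {δ : ℝ} (hδ : 0 < δ) {W : Set ℂ} (hW : IsCompact W)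
    (hWδ : ∀ w ∈ W, infDist w Xᶜ ≤ δ) :
    ∃ r : ℝ, 0 < r ∧ r ≤ 1 ∧ ∀ w ∈ W, ∃ s ∈ GG X ((R + 2 : ℝ) : ℂ) r, ‖s - w‖ < 3 * δ := by
  refine hW.induction_on (p := fun W => ∃ r : ℝ, 0 < r ∧ r ≤ 1 ∧ ∀ w ∈ W,
    ∃ s ∈ GG X ((R + 2 : ℝ) : ℂ) r, ‖s - w‖ < 3 * δ) ⟨1, one_pos, le_rfl, by simp⟩ ?_ ?_ ?_
  · rintro A B hAB ⟨r, h1, h2, h3⟩
    exact ⟨r, h1, h2, fun w hw => h3 w (hAB hw)⟩
  · rintro A B ⟨r, h1, h2, h3⟩ ⟨r', h1', h2', h3'⟩
    refine ⟨min r r', lt_min h1 h1', (min_le_left _ _).trans h2, ?_⟩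
    rintro w (hw | hw)
    · obtain ⟨s, hs, hsw⟩ := h3 w hw
      exact ⟨s, GG_anti (min_le_left _ _) hs, hsw⟩
    · obtain ⟨s, hs, hsw⟩ := h3' w hw
      exact ⟨s, GG_anti (min_le_right _ _) hs, hsw⟩
  · intro w hw
    have h1 : infDist w Xᶜ < 2 * δ := lt_of_le_of_lt (hWδ w hw) (by linarith)
    obtain ⟨s, hs, hsd⟩ := (infDist_lt_iff hconn.nonempty).1 h1
    obtain ⟨r, hr0, hr1, hsG⟩ := mem_GG_of_compl hX hne hR0 hR hconn hs
    refine ⟨ball w δ, mem_nhdsWithin_of_mem_nhds (ball_mem_nhds w hδ), r, hr0, hr1, fun w' hw' => ⟨s, hsG, ?_⟩⟩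
    rw [mem_ball] at hw'
    rw [← dist_eq_norm]
    have h2 := dist_triangle s w w'
    rw [dist_comm w s] at hsd
    rw [dist_comm w' w] at hw'
    linarith

section

variable {Λ : Type*} [MeasurableSpace Λ] {ν : Measure Λ} [IsFiniteMeasure ν] {z ζ : Λ → ℂ}

lemma NN_decay (D : Cyc ν z ζ) {X : Set ℂ} (hne : X.Nonempty) {R : ℝ} (hR : X ⊆ closedBall 0 R) {ε : ℝ}
    (hz : ∀ l, infDist (z l) X ≤ 1) {t : ℝ} (ht : R + 1 < t) (ht0 : 0 ≤ t) :
    ‖NN ν z ζ ε t‖ ≤ (t - R - 1)⁻¹ * ∫ l, ‖ζ l‖ ∂ν := by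
  unfold NN
  calc ‖∫ l, KK ε (z l - t) * ζ l ∂ν‖ ≤ ∫ l, (t - R - 1)⁻¹ * ‖ζ l‖ ∂ν := by
        apply norm_integral_le_of_norm_le (D.int.norm.const_mul _)
        filter_upwards with l
        rw [norm_mul]
        gcongr
        refine (norm_KK_le ε _).trans ?_
        apply inv_anti₀ (by linarith)
        have h1 := infDist_ge hne hR (z l)
        have h2 := hz l
        have h3 : ‖(t:ℂ)‖ - ‖z l‖ ≤ ‖(t:ℂ) - z l‖ := norm_sub_norm_le _ _
        rw [Complex.norm_real, Real.norm_eq_abs, abs_of_nonneg ht0] at h3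
        rw [norm_sub_rev]
        linarith
    _ = _ := integral_const_mul _ _

lemma NN_zero (D : Cyc ν z ζ) {X : Set ℂ} (hne : X.Nonempty) {R : ℝ} (hR0 : 0 ≤ R)
    (hR : X ⊆ closedBall 0 R) {ε η r : ℝ} (hε : 0 < ε) (_hη : 0 ≤ η) (hz : ∀ l, infDist (z l) X ≤ η)
    (hr : η + ε ≤ r) (hr1 : r ≤ 1) {u : ℂ} (hu : u ∈ GG X ((R + 2 : ℝ) : ℂ) r) :
    NN ν z ζ ε u = 0 := by
  have hfd : (GG X ((R + 2 : ℝ) : ℂ) r).EqOn (fderiv ℝ (NN ν z ζ ε)) 0 := by
    intro w hw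
    rw [(hasFDerivAt_NN D hε w).fderiv]
    apply ContinuousLinearMap.ext
    intro v
    have hw' : r < infDist w X := GG_subset _ _ _ hw
    have hmu : ∀ l, mu ε (z l - w) = 0 := by
      intro l
      apply mu_zero hε
      have h1 : infDist w X ≤ infDist (z l) X + dist w (z l) := infDist_le_infDist_add_dist
      rw [dist_comm, dist_eq_norm] at h1
      have h2 := hz l
      linarith
    rw [NN'_apply D hε]
    simp [hmu]
  have hconst : ∀ t : ℝ, R + 2 ≤ t → NN ν z ζ ε u = NN ν z ζ ε t := by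
    intro t ht
    exact (isOpen_GG _ _ _).is_const_of_fderiv_eq_zero (GG_preconnected _ _ _)
      (fun w _ => (hasFDerivAt_NN D hε w).differentiableAt.differentiableWithinAt) hfd hu
      (far_mem_GG hne hR0 hR hr1 ht)
  have hlim : Tendsto (fun t : ℝ => (t - R - 1)⁻¹ * ∫ l, ‖ζ l‖ ∂ν) atTop (𝓝 0) := by
    have h1 : Tendsto (fun t : ℝ => (t - R - 1)⁻¹) atTop (𝓝 0) := by
      apply tendsto_inv_atTop_zero.comp
      have : Tendsto (fun t : ℝ => t + (-R - 1)) atTop atTop := tendsto_atTop_add_const_right _ _ tendsto_id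
      refine this.congr fun t => by ring
    have := h1.mul_const (∫ l, ‖ζ l‖ ∂ν)
    rwa [zero_mul] at this
  have hle : ‖NN ν z ζ ε u‖ ≤ 0 := by
    refine ge_of_tendsto hlim ?_
    filter_upwards [eventually_ge_atTop (R + 2)] with t ht
    rw [hconst t ht]
    exact NN_decay D hne hR (fun l => (hz l).trans (by linarith)) (by linarith) (by linarith)
  exact norm_le_zero_iff.1 hle

end

end Pool.Agent.Helper57.Reg
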