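import Pool.Agent.Helper57.Reg.Cyc

/-!
# Crossing lemma and the estimate of the winding function near the complement
-/

set_option autoImplicit false

namespace Pool.Agent.Helper57.Reg

open Filter MeasureTheory Metric Set Topology

lemma cross {C : Set ℂ} (hC : IsPreconnected C) {w : ℂ} {δ : ℝ} {s p : ℂ} (hs : s ∈ C)
    (hsw : ‖s - w‖ < 3 * δ) (hp : p ∈ C) (hpw : 4 * δ < |(p - w).re|) :
    (∀ x ∈ Icc (3 * δ) (4 * δ), ∃ y ∈ Icc (-(4 * δ)) (4 * δ), w + (x:ℂ) * 1 + (y:ℂ) * Complex.I ∈ C) ∨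
    (∀ x ∈ Icc (3 * δ) (4 * δ), ∃ y ∈ Icc (-(4 * δ)) (4 * δ), w + (x:ℂ) * (-1) + (y:ℂ) * Complex.I ∈ C) ∨
    (∀ x ∈ Icc (3 * δ) (4 * δ), ∃ y ∈ Icc (-(4 * δ)) (4 * δ), w + (x:ℂ) * Complex.I + (y:ℂ) * 1 ∈ C) ∨
    (∀ x ∈ Icc (3 * δ) (4 * δ), ∃ y ∈ Icc (-(4 * δ)) (4 * δ), w + (x:ℂ) * (-Complex.I) + (y:ℂ) * 1 ∈ C) := by
  by_contra hcon
  simp only [not_or, not_forall, not_exists] at hcon
  obtain ⟨⟨x1, hx1, h1⟩, ⟨x2, hx2, h2⟩, ⟨y1, hy1, h3⟩, ⟨y2, hy2, h4⟩⟩ := hcon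
  rw [mem_Icc] at hx1 hx2 hy1 hy2
  set U : Set ℂ := {u | -x2 < (u - w).re ∧ (u - w).re < x1 ∧ -y2 < (u - w).im ∧ (u - w).im < y1} with hU
  set V : Set ℂ := {u | (u - w).re < -x2 ∨ x1 < (u - w).re ∨ (u - w).im < -y2 ∨ y1 < (u - w).im} with hV
  have c1 : Continuous fun u : ℂ => (u - w).re := by fun_prop
  have c2 : Continuous fun u : ℂ => (u - w).im := by fun_prop
  have hUo : IsOpen U :=
    (isOpen_lt continuous_const c1).inter ((isOpen_lt c1 continuous_const).inter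
      ((isOpen_lt continuous_const c2).inter (isOpen_lt c2 continuous_const)))
  have hVo : IsOpen V :=
    (isOpen_lt c1 continuous_const).union ((isOpen_lt continuous_const c1).union
      ((isOpen_lt c2 continuous_const).union (isOpen_lt continuous_const c2)))
  have hcov : C ⊆ U ∪ V := by
    intro u hu
    by_contra hn
    simp only [mem_union, not_or] at hn
    obtain ⟨hnU, hnV⟩ := hn
    have hnV' : ¬ ((u - w).re < -x2 ∨ x1 < (u - w).re ∨ (u - w).im < -y2 ∨ y1 < (u - w).im) := hnV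
    have hnU' : ¬ (-x2 < (u - w).re ∧ (u - w).re < x1 ∧ -y2 < (u - w).im ∧ (u - w).im < y1) := hnU
    simp only [not_or, not_lt] at hnV'
    obtain ⟨a1, a2, a3, a4⟩ := hnV'
    have heq : (u - w).re = x1 ∨ (u - w).re = -x2 ∨ (u - w).im = y1 ∨ (u - w).im = -y2 := by
      by_contra hcon
      simp only [not_or] at hcon
      apply hnU'
      refine ⟨lt_of_le_of_ne a1 (Ne.symm hcon.2.1), lt_of_le_of_ne a2 hcon.1,
        lt_of_le_of_ne a3 (Ne.symm hcon.2.2.2), lt_of_le_of_ne a4 hcon.2.2.1⟩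
    rcases heq with h | h | h | h
    · apply h1 (u - w).im
      refine ⟨⟨by linarith, by linarith⟩, ?_⟩
      have : w + (x1:ℂ) * 1 + ((u - w).im : ℂ) * Complex.I = u := by
        rw [← h]
        apply Complex.ext <;> simp
      rw [this]; exact hu
    · apply h2 (u - w).im
      refine ⟨⟨by linarith, by linarith⟩, ?_⟩
      have : w + (x2:ℂ) * (-1) + ((u - w).im : ℂ) * Complex.I = u := by
        have hx : x2 = -(u - w).re := by linarith
        rw [hx]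
        apply Complex.ext <;> simp
      rw [this]; exact hu
    · apply h3 (u - w).re
      refine ⟨⟨by linarith, by linarith⟩, ?_⟩
      have : w + (y1:ℂ) * Complex.I + ((u - w).re : ℂ) * 1 = u := by
        rw [← h]
        apply Complex.ext <;> simp
      rw [this]; exact hu
    · apply h4 (u - w).re
      refine ⟨⟨by linarith, by linarith⟩, ?_⟩
      have : w + (y2:ℂ) * (-Complex.I) + ((u - w).re : ℂ) * 1 = u := by
        have hx : y2 = -(u - w).im := by linarith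
        rw [hx]
        apply Complex.ext <;> simp
      rw [this]; exact hu
  have hsre : |(s - w).re| < 3 * δ := lt_of_le_of_lt (Complex.abs_re_le_norm _) hsw
  have hsim : |(s - w).im| < 3 * δ := lt_of_le_of_lt (Complex.abs_im_le_norm _) hsw
  rw [abs_lt] at hsre hsim
  have hsU : s ∈ U := by
    refine ⟨?_, ?_, ?_, ?_⟩ <;> linarith [hsre.1, hsre.2, hsim.1, hsim.2]
  have hpV : p ∈ V := by
    rcases lt_abs.1 hpw with h | h
    · exact Or.inr (Or.inl (by linarith))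
    · exact Or.inl (by linarith)
  obtain ⟨u, _, huU, huV⟩ := hC U V hUo hVo hcov ⟨s, hs, hsU⟩ ⟨p, hp, hpV⟩
  have huU' : -x2 < (u - w).re ∧ (u - w).re < x1 ∧ -y2 < (u - w).im ∧ (u - w).im < y1 := huU
  have huV' : (u - w).re < -x2 ∨ x1 < (u - w).re ∨ (u - w).im < -y2 ∨ y1 < (u - w).im := huV
  obtain ⟨b1, b2, b3, b4⟩ := huU'
  rcases huV' with h | h | h | h <;> linarith

/-- the majorant -/
noncomputable def HH (β : ℂ → ENNReal) (δ : ℝ) (v₁ v₂ w : ℂ) : ENNReal :=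
  (∫⁻ t in Ioc (0:ℝ) (4 * δ), β (w + t * v₁)) +
    (ENNReal.ofReal δ)⁻¹ * ∫⁻ x in Ioc (0:ℝ) (4 * δ),
      ((∫⁻ t in Ioc (0:ℝ) (4 * δ), β (w + x * v₁ + t * v₂)) +
        ∫⁻ t in Ioc (0:ℝ) (4 * δ), β (w + x * v₁ + t * (-v₂)))

lemma meas_slice {β : ℂ → ENNReal} (hβ : Measurable β) (v : ℂ) :
    Measurable fun p : ℂ × ℝ => β (p.1 + p.2 * v) :=
  hβ.comp (by fun_prop)

lemma point_est {f : ℂ → ℂ} {β : ℂ → ENNReal} (hβ : Measurable β)
    (hline : ∀ w v : ℂ, ‖v‖ ≤ 1 → ∀ h : ℝ, 0 ≤ h →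
      ENNReal.ofReal ‖f (w + h * v) - f w‖ ≤ ∫⁻ t in Ioc 0 h, β (w + t * v))
    {δ : ℝ} (hδ : 0 < δ) {v₁ v₂ w : ℂ} (hv₁ : ‖v₁‖ ≤ 1) (hv₂ : ‖v₂‖ ≤ 1)
    (hz : ∀ x ∈ Icc (3 * δ) (4 * δ), ∃ y ∈ Icc (-(4 * δ)) (4 * δ), f (w + x * v₁ + y * v₂) = 0) :
    ENNReal.ofReal ‖f w‖ ≤ HH β δ v₁ v₂ w := by
  have hδ' : ENNReal.ofReal δ ≠ 0 := by
    rw [Ne, ENNReal.ofReal_eq_zero, not_le]; exact hδ
  set a : ENNReal := ∫⁻ t in Ioc (0:ℝ) (4 * δ), β (w + t * v₁) with ha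
  set g : ℝ → ENNReal := fun x => (∫⁻ t in Ioc (0:ℝ) (4 * δ), β (w + x * v₁ + t * v₂)) +
        ∫⁻ t in Ioc (0:ℝ) (4 * δ), β (w + x * v₁ + t * (-v₂)) with hg
  have hgm : Measurable g := by
    apply Measurable.add
    · have h1 : Measurable fun p : ℝ × ℝ => β (w + p.1 * v₁ + p.2 * v₂) := hβ.comp (by fun_prop)
      exact h1.lintegral_prod_right'
    · have h1 : Measurable fun p : ℝ × ℝ => β (w + p.1 * v₁ + p.2 * (-v₂)) := hβ.comp (by fun_prop)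
      exact h1.lintegral_prod_right'
  have key : ∀ x ∈ Ioc (3 * δ) (4 * δ), ENNReal.ofReal ‖f w‖ ≤ a + g x := by
    intro x hx
    obtain ⟨y, hy, hf0⟩ := hz x ⟨hx.1.le, hx.2⟩
    have hx0 : 0 ≤ x := by linarith [hx.1]
    have e1 : ENNReal.ofReal ‖f (w + x * v₁) - f w‖ ≤ a := by
      refine (hline w v₁ hv₁ x hx0).trans ?_
      exact lintegral_mono_set (Ioc_subset_Ioc_right hx.2)
    have e2 : ENNReal.ofReal ‖f (w + x * v₁ + y * v₂) - f (w + x * v₁)‖ ≤ g x := by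
      rcases le_or_gt 0 y with hy0 | hy0
      · refine ((hline (w + x * v₁) v₂ hv₂ y hy0).trans ?_).trans le_self_add
        exact lintegral_mono_set (Ioc_subset_Ioc_right hy.2)
      · have h3 := hline (w + x * v₁) (-v₂) (by rwa [norm_neg]) (-y) (by linarith)
        have h4 : (w + x * v₁ + ((-y : ℝ) : ℂ) * (-v₂)) = w + x * v₁ + y * v₂ := by push_cast; ring
        rw [h4] at h3
        refine (h3.trans ?_).trans le_add_self
        exact lintegral_mono_set (Ioc_subset_Ioc_right (by linarith [hy.1]))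
    rw [hf0, zero_sub, norm_neg] at e2
    calc ENNReal.ofReal ‖f w‖ ≤ ENNReal.ofReal (‖f (w + x * v₁) - f w‖ + ‖f (w + x * v₁)‖) := by
          apply ENNReal.ofReal_le_ofReal
          have := norm_sub_le (f (w + x * v₁)) (f (w + x * v₁) - f w)
          rw [sub_sub_cancel] at this
          linarith
      _ = ENNReal.ofReal ‖f (w + x * v₁) - f w‖ + ENNReal.ofReal ‖f (w + x * v₁)‖ :=
          ENNReal.ofReal_add (norm_nonneg _) (norm_nonneg _)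
      _ ≤ a + g x := add_le_add e1 e2
  have h5 : ENNReal.ofReal ‖f w‖ * ENNReal.ofReal δ ≤ a * ENNReal.ofReal δ + ∫⁻ x in Ioc (0:ℝ) (4 * δ), g x := by
    calc ENNReal.ofReal ‖f w‖ * ENNReal.ofReal δ = ∫⁻ _ in Ioc (3 * δ) (4 * δ), ENNReal.ofReal ‖f w‖ := by
          rw [setLIntegral_const, Real.volume_Ioc]
          congr 2; ring
      _ ≤ ∫⁻ x in Ioc (3 * δ) (4 * δ), (a + g x) := setLIntegral_mono (hgm.const_add a) key
      _ = a * ENNReal.ofReal δ + ∫⁻ x in Ioc (3 * δ) (4 * δ), g x := by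
          rw [lintegral_add_right _ hgm, setLIntegral_const, Real.volume_Ioc]
          congr 3; ring
      _ ≤ _ := add_le_add le_rfl (lintegral_mono_set (Ioc_subset_Ioc_left (by positivity : (0:ℝ) ≤ 3 * δ)))
  unfold HH
  have h6 : ENNReal.ofReal ‖f w‖ = (ENNReal.ofReal δ)⁻¹ * (ENNReal.ofReal ‖f w‖ * ENNReal.ofReal δ) := by
    rw [mul_comm (ENNReal.ofReal ‖f w‖), ← mul_assoc, ENNReal.inv_mul_cancel hδ' ENNReal.ofReal_ne_top, one_mul]
  rw [h6]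
  calc (ENNReal.ofReal δ)⁻¹ * (ENNReal.ofReal ‖f w‖ * ENNReal.ofReal δ)
      ≤ (ENNReal.ofReal δ)⁻¹ * (a * ENNReal.ofReal δ + ∫⁻ x in Ioc (0:ℝ) (4 * δ), g x) := by gcongr
    _ = a + (ENNReal.ofReal δ)⁻¹ * ∫⁻ x in Ioc (0:ℝ) (4 * δ), g x := by
        rw [mul_add, mul_comm a, ← mul_assoc, ENNReal.inv_mul_cancel hδ' ENNReal.ofReal_ne_top, one_mul]

lemma int_slice {β : ℂ → ENNReal} (hβ : Measurable β) (v : ℂ) (s : ℝ) :
    ∫⁻ w, ∫⁻ t in Ioc (0:ℝ) s, β (w + t * v) = ENNReal.ofReal s * ∫⁻ w, β w := by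
  rw [lintegral_lintegral_swap (meas_slice hβ v).aemeasurable]
  have : ∀ t : ℝ, ∫⁻ w, β (w + t * v) = ∫⁻ w, β w := fun t =>
    lintegral_add_right_eq_self (fun w => β w) _
  simp_rw [this]
  rw [setLIntegral_const, Real.volume_Ioc, sub_zero, mul_comm]

lemma HH_lintegral {β : ℂ → ENNReal} (hβ : Measurable β) {δ : ℝ} (hδ : 0 < δ) (v₁ v₂ : ℂ) :
    ∫⁻ w, HH β δ v₁ v₂ w = ENNReal.ofReal (36 * δ) * ∫⁻ w, β w := by
  have hδ' : ENNReal.ofReal δ ≠ 0 := by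
    rw [Ne, ENNReal.ofReal_eq_zero, not_le]; exact hδ
  have hs : 0 ≤ 4 * δ := by positivity
  have m1 : Measurable fun p : (ℂ × ℝ) × ℝ => β (p.1.1 + p.1.2 * v₁ + p.2 * v₂) := hβ.comp (by fun_prop)
  have m2 : Measurable fun p : (ℂ × ℝ) × ℝ => β (p.1.1 + p.1.2 * v₁ + p.2 * (-v₂)) := hβ.comp (by fun_prop)
  have m3 : Measurable fun p : ℂ × ℝ => (∫⁻ t in Ioc (0:ℝ) (4 * δ), β (p.1 + p.2 * v₁ + t * v₂)) +
        ∫⁻ t in Ioc (0:ℝ) (4 * δ), β (p.1 + p.2 * v₁ + t * (-v₂)) :=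
    (m1.lintegral_prod_right').add (m2.lintegral_prod_right')
  have m4 : Measurable fun w : ℂ => ∫⁻ t in Ioc (0:ℝ) (4 * δ), β (w + t * v₁) :=
    (meas_slice hβ v₁).lintegral_prod_right'
  unfold HH
  rw [lintegral_add_left m4, lintegral_const_mul _ m3.lintegral_prod_right', int_slice hβ v₁ (4 * δ),
    lintegral_lintegral_swap m3.aemeasurable]
  have e : ∀ x : ℝ, ∫⁻ w : ℂ, ((∫⁻ t in Ioc (0:ℝ) (4 * δ), β (w + x * v₁ + t * v₂)) +
        ∫⁻ t in Ioc (0:ℝ) (4 * δ), β (w + x * v₁ + t * (-v₂))) =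
        ENNReal.ofReal (8 * δ) * ∫⁻ w, β w := by
    intro x
    have m5 : ∀ v : ℂ, Measurable fun w : ℂ => ∫⁻ t in Ioc (0:ℝ) (4 * δ), β (w + t * v) := fun v =>
      (meas_slice hβ v).lintegral_prod_right'
    have m6 : Measurable fun w : ℂ => ∫⁻ t in Ioc (0:ℝ) (4 * δ), β (w + x * v₁ + t * v₂) :=
      (m5 v₂).comp (measurable_add_const ((x:ℂ) * v₁))
    rw [lintegral_add_left m6]
    rw [lintegral_add_right_eq_self (fun w : ℂ => ∫⁻ t in Ioc (0:ℝ) (4 * δ), β (w + t * v₂)),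
      lintegral_add_right_eq_self (fun w : ℂ => ∫⁻ t in Ioc (0:ℝ) (4 * δ), β (w + t * (-v₂))),
      int_slice hβ v₂ (4 * δ), int_slice hβ (-v₂) (4 * δ), ← add_mul, ← ENNReal.ofReal_add hs hs]
    congr 2; ring
  simp_rw [e]
  rw [setLIntegral_const, Real.volume_Ioc, sub_zero]
  have e2 : (ENNReal.ofReal δ)⁻¹ * (ENNReal.ofReal (8 * δ) * (∫⁻ w, β w) * ENNReal.ofReal (4 * δ)) =
      ENNReal.ofReal (32 * δ) * ∫⁻ w, β w := by
    have e3 : ENNReal.ofReal (8 * δ) * (∫⁻ w, β w) * ENNReal.ofReal (4 * δ) =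
        ENNReal.ofReal δ * (ENNReal.ofReal (32 * δ) * ∫⁻ w, β w) := by
      have e4 : ENNReal.ofReal (8 * δ) * ENNReal.ofReal (4 * δ) = ENNReal.ofReal δ * ENNReal.ofReal (32 * δ) := by
        rw [← ENNReal.ofReal_mul (by positivity), ← ENNReal.ofReal_mul (by positivity)]
        congr 1; ring
      calc _ = (ENNReal.ofReal (8 * δ) * ENNReal.ofReal (4 * δ)) * (∫⁻ w, β w) := by ring
        _ = _ := by rw [e4]; ring
    rw [e3, ← mul_assoc, ENNReal.inv_mul_cancel hδ' ENNReal.ofReal_ne_top, one_mul]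
  rw [e2, ← add_mul, ← ENNReal.ofReal_add hs (by positivity)]
  congr 2; ring

/-- sum of the four majorants -/
noncomputable def HS (β : ℂ → ENNReal) (δ : ℝ) (w : ℂ) : ENNReal :=
  HH β δ 1 Complex.I w + HH β δ (-1) Complex.I w + HH β δ Complex.I 1 w + HH β δ (-Complex.I) 1 w

lemma HH_measurable {β : ℂ → ENNReal} (hβ : Measurable β) (δ : ℝ) (v₁ v₂ : ℂ) :
    Measurable (HH β δ v₁ v₂) := by
  have m1 : Measurable fun p : (ℂ × ℝ) × ℝ => β (p.1.1 + p.1.2 * v₁ + p.2 * v₂) := hβ.comp (by fun_prop)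
  have m2 : Measurable fun p : (ℂ × ℝ) × ℝ => β (p.1.1 + p.1.2 * v₁ + p.2 * (-v₂)) := hβ.comp (by fun_prop)
  have m3 : Measurable fun p : ℂ × ℝ => (∫⁻ t in Ioc (0:ℝ) (4 * δ), β (p.1 + p.2 * v₁ + t * v₂)) +
        ∫⁻ t in Ioc (0:ℝ) (4 * δ), β (p.1 + p.2 * v₁ + t * (-v₂)) :=
    (m1.lintegral_prod_right').add (m2.lintegral_prod_right')
  have m4 : Measurable fun w : ℂ => ∫⁻ t in Ioc (0:ℝ) (4 * δ), β (w + t * v₁) :=
    (meas_slice hβ v₁).lintegral_prod_right'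
  unfold HH
  exact m4.add (m3.lintegral_prod_right'.const_mul _)

lemma HS_lintegral {β : ℂ → ENNReal} (hβ : Measurable β) {δ : ℝ} (hδ : 0 < δ) :
    ∫⁻ w, HS β δ w = ENNReal.ofReal (144 * δ) * ∫⁻ w, β w := by
  unfold HS
  rw [lintegral_add_right _ (HH_measurable hβ _ _ _), lintegral_add_right _ (HH_measurable hβ _ _ _),
    lintegral_add_right _ (HH_measurable hβ _ _ _)]
  rw [HH_lintegral hβ hδ, HH_lintegral hβ hδ, HH_lintegral hβ hδ, HH_lintegral hβ hδ, ← add_mul, ← add_mul,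
    ← add_mul]
  rw [← ENNReal.ofReal_add (by positivity) (by positivity), ← ENNReal.ofReal_add (by positivity) (by positivity),
    ← ENNReal.ofReal_add (by positivity) (by positivity)]
  congr 2; ring

lemma zero_set_est {f : ℂ → ℂ} {β : ℂ → ENNReal} (hβ : Measurable β)
    (hline : ∀ w v : ℂ, ‖v‖ ≤ 1 → ∀ h : ℝ, 0 ≤ h →
      ENNReal.ofReal ‖f (w + h * v) - f w‖ ≤ ∫⁻ t in Ioc 0 h, β (w + t * v))
    {C : Set ℂ} (hC : IsPreconnected C) (hf : ∀ u ∈ C, f u = 0) {w : ℂ} {δ : ℝ} (hδ : 0 < δ) {s p : ℂ}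
    (hs : s ∈ C) (hsw : ‖s - w‖ < 3 * δ) (hp : p ∈ C) (hpw : 4 * δ < |(p - w).re|) :
    ENNReal.ofReal ‖f w‖ ≤ HS β δ w := by
  unfold HS
  rcases cross hC hs hsw hp hpw with h | h | h | h
  · refine (point_est hβ hline hδ (v₁ := 1) (v₂ := Complex.I) (by simp) (by simp) ?_).trans ?_
    · intro x hx
      obtain ⟨y, hy, hm⟩ := h x hx
      exact ⟨y, hy, hf _ hm⟩
    · rw [add_assoc, add_assoc]; exact le_self_add
  · refine (point_est hβ hline hδ (v₁ := -1) (v₂ := Complex.I) (by simp) (by simp) ?_).trans ?_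
    · intro x hx
      obtain ⟨y, hy, hm⟩ := h x hx
      exact ⟨y, hy, hf _ hm⟩
    · rw [add_assoc]; exact le_trans le_add_self le_self_add
  · refine (point_est hβ hline hδ (v₁ := Complex.I) (v₂ := 1) (by simp) (by simp) ?_).trans ?_
    · intro x hx
      obtain ⟨y, hy, hm⟩ := h x hx
      exact ⟨y, hy, hf _ hm⟩
    · exact le_trans le_add_self le_self_add
  · refine (point_est hβ hline hδ (v₁ := -Complex.I) (v₂ := 1) (by simp) (by simp) ?_).trans ?_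
    · intro x hx
      obtain ⟨y, hy, hm⟩ := h x hx
      exact ⟨y, hy, hf _ hm⟩
    · exact le_add_self

end Pool.Agent.Helper57.Reg
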