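import Pool.Agent.Helper57.Reg.Kern

/-!
# Cycles and their mollified winding functions
-/

set_option autoImplicit false

namespace Pool.Agent.Helper57.Reg

open Filter MeasureTheory Metric Set Topology
open scoped ComplexConjugate

/-- An abstract cycle: positions `z`, velocities `ζ` over a finite measure space. -/
structure Cyc {Λ : Type*} [MeasurableSpace Λ] (ν : Measure Λ) (z ζ : Λ → ℂ) : Prop where
  mz : Measurable z
  mζ : Measurable ζ
  int : Integrable ζ ν
  closed : ∀ (g : ℂ → ℂ) (g' : ℂ → ℂ →L[ℝ] ℂ), (∀ x, HasFDerivAt g (g' x) x) → Continuous g' →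
    ∫ l, g' (z l) (ζ l) ∂ν = 0

section

variable {Λ : Type*} [MeasurableSpace Λ] {ν : Measure Λ} [IsFiniteMeasure ν] {z ζ : Λ → ℂ}

/-- mollified winding function -/
noncomputable def NN (ν : Measure Λ) (z ζ : Λ → ℂ) (ε : ℝ) (w : ℂ) : ℂ :=
  ∫ l, KK ε (z l - w) * ζ l ∂ν

/-- bound of its derivative -/
noncomputable def BB (ν : Measure Λ) (z ζ : Λ → ℂ) (ε : ℝ) (w : ℂ) : ℝ :=
  2 * ∫ l, mu ε (z l - w) * ‖ζ l‖ ∂ν

/-- derivative -/
noncomputable def NN' (ν : Measure Λ) (z ζ : Λ → ℂ) (ε : ℝ) (w : ℂ) : ℂ →L[ℝ] ℂ :=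
  ∫ l, -(ζ l • Lin (AA ε (z l - w)) (mu ε (z l - w))) ∂ν

lemma int_mul_bdd (D : Cyc ν z ζ) {g : ℂ → ℂ} (hg : Continuous g) {C : ℝ} (hC : ∀ x, ‖g x‖ ≤ C) (w : ℂ) :
    Integrable (fun l => g (z l - w) * ζ l) ν := by
  apply D.int.bdd_mul (c := C)
  · exact (hg.measurable.comp (D.mz.sub_const w)).aestronglyMeasurable
  · exact Eventually.of_forall fun l => hC _

lemma hasFDerivAt_NN (D : Cyc ν z ζ) {ε : ℝ} (hε : 0 < ε) (w : ℂ) :
    HasFDerivAt (NN ν z ζ ε) (NN' ν z ζ ε w) w := by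
  obtain ⟨C, hC0, hC⟩ := md_bound
  have hLin : ∀ x, ‖Lin (AA ε x) (mu ε x)‖ ≤ (C / ε ^ 2 + 4 / ε ^ 2) + C / ε ^ 2 := by
    intro x
    refine (norm_Lin_le _ _).trans (add_le_add (norm_AA_le C hC hε x) ?_)
    rw [Complex.norm_real, Real.norm_eq_abs, abs_of_nonneg (mu_nonneg ε x)]
    exact mu_le C hC hε x
  unfold NN NN'
  refine hasFDerivAt_integral_of_dominated_of_fderiv_le (s := univ) (F := fun w l => KK ε (z l - w) * ζ l)
    (F' := fun w l => -(ζ l • Lin (AA ε (z l - w)) (mu ε (z l - w))))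
    (bound := fun l => ‖ζ l‖ * ((C / ε ^ 2 + 4 / ε ^ 2) + C / ε ^ 2)) univ_mem ?_ ?_ ?_ ?_ ?_ ?_
  · filter_upwards with w'
    exact (((KK_continuous hε).measurable.comp (D.mz.sub_const w')).mul D.mζ).aestronglyMeasurable
  · exact int_mul_bdd D (KK_continuous hε) (norm_KK_le' hε) w
  · have h1 : Continuous fun x : ℂ => Lin (AA ε x) (mu ε x) :=
      Lin_continuous (AA_continuous hε) (Complex.continuous_ofReal.comp (mu_continuous ε))
    have h2 : StronglyMeasurable fun l => Lin (AA ε (z l - w)) (mu ε (z l - w)) :=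
      h1.stronglyMeasurable.comp_measurable (D.mz.sub_const w)
    exact ((D.mζ.stronglyMeasurable.smul h2).neg).aestronglyMeasurable
  · filter_upwards with l w' _
    rw [norm_neg, norm_smul]
    gcongr
    exact hLin _
  · exact D.int.norm.mul_const _
  · filter_upwards with l w' _
    have h1 : HasFDerivAt (fun w' : ℂ => z l - w') (-(ContinuousLinearMap.id ℝ ℂ)) w' := by
      simpa using (hasFDerivAt_id w').const_sub (z l)
    have h2 := ((hasFDerivAt_KK hε (z l - w')).comp w' h1).mul_const (ζ l)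
    refine h2.congr_fderiv ?_
    apply ContinuousLinearMap.ext
    intro v
    simp [Lin_apply]

lemma NN'_apply (D : Cyc ν z ζ) {ε : ℝ} (hε : 0 < ε) (w v : ℂ) :
    NN' ν z ζ ε w v = v * (∫ l, (mu ε (z l - w) : ℂ) * conj (ζ l) ∂ν) -
      conj v * ∫ l, (mu ε (z l - w) : ℂ) * ζ l ∂ν := by
  obtain ⟨C, hC0, hC⟩ := md_bound
  have hLin : ∀ x, ‖Lin (AA ε x) (mu ε x)‖ ≤ (C / ε ^ 2 + 4 / ε ^ 2) + C / ε ^ 2 := by
    intro x
    refine (norm_Lin_le _ _).trans (add_le_add (norm_AA_le C hC hε x) ?_)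
    rw [Complex.norm_real, Real.norm_eq_abs, abs_of_nonneg (mu_nonneg ε x)]
    exact mu_le C hC hε x
  have h1 : Continuous fun x : ℂ => Lin (AA ε x) (mu ε x) :=
    Lin_continuous (AA_continuous hε) (Complex.continuous_ofReal.comp (mu_continuous ε))
  have hmuc : Continuous fun x : ℂ => ((mu ε x : ℝ) : ℂ) := Complex.continuous_ofReal.comp (mu_continuous ε)
  have hmub : ∀ x : ℂ, ‖((mu ε x : ℝ) : ℂ)‖ ≤ C / ε ^ 2 := by
    intro x
    rw [Complex.norm_real, Real.norm_eq_abs, abs_of_nonneg (mu_nonneg ε x)]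
    exact mu_le C hC hε x
  have i1 : Integrable (fun l => AA ε (z l - w) * ζ l) ν :=
    int_mul_bdd D (AA_continuous hε) (norm_AA_le C hC hε) w
  have i2 : Integrable (fun l => (mu ε (z l - w) : ℂ) * ζ l) ν := int_mul_bdd D hmuc hmub w
  have i3 : Integrable (fun l => (mu ε (z l - w) : ℂ) * conj (ζ l)) ν := by
    apply Integrable.bdd_mul (c := C / ε ^ 2)
    · exact (Complex.conjCLE.toContinuousLinearMap.integrable_comp D.int)
    · exact (hmuc.measurable.comp (D.mz.sub_const w)).aestronglyMeasurable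
    · exact Eventually.of_forall fun l => hmub _
  have iF : Integrable (fun l => -(ζ l • Lin (AA ε (z l - w)) (mu ε (z l - w)))) ν := by
    refine Integrable.mono' (D.int.norm.mul_const ((C / ε ^ 2 + 4 / ε ^ 2) + C / ε ^ 2)) ?_ ?_
    · have h2 : StronglyMeasurable fun l => Lin (AA ε (z l - w)) (mu ε (z l - w)) :=
        h1.stronglyMeasurable.comp_measurable (D.mz.sub_const w)
      exact ((D.mζ.stronglyMeasurable.smul h2).neg).aestronglyMeasurable
    · filter_upwards with l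
      rw [norm_neg, norm_smul]
      gcongr
      exact hLin _
  -- closedness
  have hclosed : (∫ l, AA ε (z l - w) * ζ l ∂ν) + ∫ l, (mu ε (z l - w) : ℂ) * conj (ζ l) ∂ν = 0 := by
    have h2 := D.closed (fun x => KK ε (x - w)) (fun x => Lin (AA ε (x - w)) (mu ε (x - w)))
      (fun x => by
        have h3 : HasFDerivAt (fun x : ℂ => x - w) (ContinuousLinearMap.id ℝ ℂ) x :=
          (hasFDerivAt_id x).sub_const w
        have h4 := (hasFDerivAt_KK hε (x - w)).comp x h3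
        rwa [ContinuousLinearMap.comp_id] at h4)
      (h1.comp (continuous_sub_right w))
    rw [← integral_add i1 i3, ← h2]
    refine integral_congr_ae (Eventually.of_forall fun l => ?_)
    simp only
    rw [Lin_apply]
  unfold NN'
  rw [ContinuousLinearMap.integral_apply iF]
  have e : ∀ l, (-(ζ l • Lin (AA ε (z l - w)) (mu ε (z l - w)))) v =
      -(v * (AA ε (z l - w) * ζ l) + conj v * ((mu ε (z l - w) : ℂ) * ζ l)) := by
    intro l
    rw [neg_apply, smul_apply, Lin_apply, smul_eq_mul]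
    ring
  simp_rw [e]
  rw [integral_neg, integral_add (i1.const_mul v) (i2.const_mul _), integral_const_mul, integral_const_mul]
  have h5 : ∫ l, AA ε (z l - w) * ζ l ∂ν = - ∫ l, (mu ε (z l - w) : ℂ) * conj (ζ l) ∂ν :=
    eq_neg_of_add_eq_zero_left hclosed
  rw [h5]
  ring

lemma NN'_le (D : Cyc ν z ζ) {ε : ℝ} (hε : 0 < ε) (w v : ℂ) :
    ‖NN' ν z ζ ε w v‖ ≤ BB ν z ζ ε w * ‖v‖ := by
  rw [NN'_apply D hε]
  have h1 : ‖∫ l, (mu ε (z l - w) : ℂ) * conj (ζ l) ∂ν‖ ≤ ∫ l, mu ε (z l - w) * ‖ζ l‖ ∂ν := by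
    refine (norm_integral_le_integral_norm _).trans (le_of_eq ?_)
    congr 1
    ext l
    rw [norm_mul, Complex.norm_real, Real.norm_eq_abs, abs_of_nonneg (mu_nonneg _ _), RCLike.norm_conj]
  have h2 : ‖∫ l, (mu ε (z l - w) : ℂ) * ζ l ∂ν‖ ≤ ∫ l, mu ε (z l - w) * ‖ζ l‖ ∂ν := by
    refine (norm_integral_le_integral_norm _).trans (le_of_eq ?_)
    congr 1
    ext l
    rw [norm_mul, Complex.norm_real, Real.norm_eq_abs, abs_of_nonneg (mu_nonneg _ _)]
  calc ‖v * (∫ l, (mu ε (z l - w) : ℂ) * conj (ζ l) ∂ν) - conj v * ∫ l, (mu ε (z l - w) : ℂ) * ζ l ∂ν‖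
      ≤ ‖v * (∫ l, (mu ε (z l - w) : ℂ) * conj (ζ l) ∂ν)‖ + ‖conj v * ∫ l, (mu ε (z l - w) : ℂ) * ζ l ∂ν‖ :=
        norm_sub_le _ _
    _ ≤ ‖v‖ * (∫ l, mu ε (z l - w) * ‖ζ l‖ ∂ν) + ‖v‖ * (∫ l, mu ε (z l - w) * ‖ζ l‖ ∂ν) := by
        rw [norm_mul, norm_mul, RCLike.norm_conj]
        gcongr
    _ = _ := by unfold BB; ring

lemma BB_nonneg (ε : ℝ) (w : ℂ) : 0 ≤ BB ν z ζ ε w := by
  unfold BB
  have : 0 ≤ ∫ l, mu ε (z l - w) * ‖ζ l‖ ∂ν :=
    integral_nonneg fun l => mul_nonneg (mu_nonneg _ _) (norm_nonneg _)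
  positivity

lemma BB_continuous (D : Cyc ν z ζ) {ε : ℝ} (hε : 0 < ε) : Continuous (BB ν z ζ ε) := by
  obtain ⟨C, hC0, hC⟩ := md_bound
  unfold BB
  apply Continuous.const_mul
  apply continuous_of_dominated (bound := fun l => C / ε ^ 2 * ‖ζ l‖)
  · intro w
    exact (((mu_continuous ε).measurable.comp (D.mz.sub_const w)).mul D.mζ.norm).aestronglyMeasurable
  · intro w
    filter_upwards with l
    rw [norm_mul, norm_norm, Real.norm_eq_abs, abs_of_nonneg (mu_nonneg _ _)]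
    gcongr
    exact mu_le C hC hε _
  · exact D.int.norm.const_mul _
  · filter_upwards with l
    exact ((mu_continuous ε).comp (by fun_prop)).mul continuous_const

lemma BB_lintegral (D : Cyc ν z ζ) {ε : ℝ} (hε : 0 < ε) :
    ∫⁻ w, ENNReal.ofReal (BB ν z ζ ε w) = ENNReal.ofReal (2 * Real.pi * ∫ l, ‖ζ l‖ ∂ν) := by
  obtain ⟨C, hC0, hC⟩ := md_bound
  have hi : ∀ w, Integrable (fun l => mu ε (z l - w) * ‖ζ l‖) ν := by
    intro w
    apply D.int.norm.bdd_mul (c := C / ε ^ 2)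
    · exact ((mu_continuous ε).measurable.comp (D.mz.sub_const w)).aestronglyMeasurable
    · filter_upwards with l
      rw [Real.norm_eq_abs, abs_of_nonneg (mu_nonneg _ _)]
      exact mu_le C hC hε _
  have e1 : ∀ w, ENNReal.ofReal (BB ν z ζ ε w) =
      ENNReal.ofReal 2 * ∫⁻ l, ENNReal.ofReal (mu ε (z l - w)) * ENNReal.ofReal ‖ζ l‖ ∂ν := by
    intro w
    unfold BB
    rw [ENNReal.ofReal_mul (by norm_num), ofReal_integral_eq_lintegral_ofReal (hi w)
      (Eventually.of_forall fun l => mul_nonneg (mu_nonneg _ _) (norm_nonneg _))]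
    congr 1
    apply lintegral_congr
    intro l
    rw [ENNReal.ofReal_mul (mu_nonneg _ _)]
  have hmeas : Measurable fun p : ℂ × Λ => ENNReal.ofReal (mu ε (z p.2 - p.1)) * ENNReal.ofReal ‖ζ p.2‖ := by
    have h1 : Measurable fun p : ℂ × Λ => ENNReal.ofReal (mu ε (z p.2 - p.1)) :=
      ((mu_continuous ε).measurable.comp ((D.mz.comp measurable_snd).sub measurable_fst)).ennreal_ofReal
    have h2 : Measurable fun p : ℂ × Λ => ENNReal.ofReal ‖ζ p.2‖ :=
      (D.mζ.comp measurable_snd).norm.ennreal_ofReal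
    exact h1.mul h2
  simp_rw [e1]
  rw [lintegral_const_mul' _ _ (by simp), lintegral_lintegral_swap hmeas.aemeasurable]
  have e2 : ∀ l, ∫⁻ w, ENNReal.ofReal (mu ε (z l - w)) * ENNReal.ofReal ‖ζ l‖ =
      ENNReal.ofReal Real.pi * ENNReal.ofReal ‖ζ l‖ := by
    intro l
    rw [lintegral_mul_const' _ _ (by simp)]
    congr 1
    rw [lintegral_sub_left_eq_self (fun w => ENNReal.ofReal (mu ε w)) (z l),
      ← ofReal_integral_eq_lintegral_ofReal (mu_integrable hε) (Eventually.of_forall fun w => mu_nonneg _ _),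
      integral_mu hε]
  simp_rw [e2]
  rw [lintegral_const_mul' _ _ (by simp), ← ofReal_integral_eq_lintegral_ofReal D.int.norm
    (Eventually.of_forall fun l => norm_nonneg _), ← ENNReal.ofReal_mul Real.pi_pos.le,
    ← ENNReal.ofReal_mul (by norm_num)]
  congr 1
  ring

lemma line_est (D : Cyc ν z ζ) {ε : ℝ} (hε : 0 < ε) (w v : ℂ) (hv : ‖v‖ ≤ 1) {h : ℝ} (hh : 0 ≤ h) :
    ENNReal.ofReal ‖NN ν z ζ ε (w + h * v) - NN ν z ζ ε w‖ ≤
      ∫⁻ t in Ioc 0 h, ENNReal.ofReal (BB ν z ζ ε (w + t * v)) := by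
  have hBc : Continuous fun t : ℝ => BB ν z ζ ε (w + t * v) := (BB_continuous D hε).comp (by fun_prop)
  have hd : ∀ t : ℝ, HasDerivAt (fun t : ℝ => NN ν z ζ ε (w + t * v) - NN ν z ζ ε w)
      (NN' ν z ζ ε (w + t * v) v) t := by
    intro t
    have h1 : HasDerivAt (fun t : ℝ => w + t * v) v t := by
      have := ((Complex.ofRealCLM.hasDerivAt (x := t)).mul_const v).const_add w
      simpa using this
    exact ((hasFDerivAt_NN D hε (w + t * v)).comp_hasDerivAt t h1).sub_const _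
  have key : ‖NN ν z ζ ε (w + h * v) - NN ν z ζ ε w‖ ≤ ∫ t in (0:ℝ)..h, BB ν z ζ ε (w + t * v) := by
    refine image_norm_le_of_norm_deriv_right_le_deriv_boundary (a := 0) (b := h)
      (f := fun t : ℝ => NN ν z ζ ε (w + t * v) - NN ν z ζ ε w)
      (f' := fun t : ℝ => NN' ν z ζ ε (w + t * v) v)
      (B := fun x => ∫ t in (0:ℝ)..x, BB ν z ζ ε (w + t * v)) (B' := fun t => BB ν z ζ ε (w + t * v))
      (fun t _ => (hd t).continuousAt.continuousWithinAt) (fun t _ => (hd t).hasDerivWithinAt) ?_ ?_ ?_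
      (right_mem_Icc.2 hh)
    · simp
    · intro x
      exact intervalIntegral.integral_hasDerivAt_right (hBc.intervalIntegrable _ _)
        (hBc.stronglyMeasurableAtFilter _ _) hBc.continuousAt
    · intro t _
      refine (NN'_le D hε _ _).trans ?_
      exact mul_le_of_le_one_right (BB_nonneg _ _) hv
  refine (ENNReal.ofReal_le_ofReal key).trans (le_of_eq ?_)
  rw [intervalIntegral.integral_of_le hh, ofReal_integral_eq_lintegral_ofReal]
  · exact (hBc.integrableOn_Icc).mono_set Ioc_subset_Icc_self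
  · exact Eventually.of_forall fun t => BB_nonneg _ _

end

end Pool.Agent.Helper57.Reg
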