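import Mathlib

/-!
# A smooth version of the Cauchy kernel
-/

set_option autoImplicit false

namespace Pool.Agent.Helper57.Reg

open Filter MeasureTheory Metric Set Topology
open scoped ComplexConjugate

/-- smooth monotone step: `0` for `s ≤ 1/4`, `1` for `s ≥ 1` -/
noncomputable def mm (s : ℝ) : ℝ := Real.smoothTransition ((4 * s - 1) / 3)

/-- derivative of the step -/
noncomputable def md (s : ℝ) : ℝ := deriv mm s

lemma mm_zero {s : ℝ} (h : s ≤ 1 / 4) : mm s = 0 :=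
  Real.smoothTransition.zero_of_nonpos (by linarith)

lemma mm_one {s : ℝ} (h : 1 ≤ s) : mm s = 1 :=
  Real.smoothTransition.one_of_one_le (by linarith)

lemma mm_nonneg (s : ℝ) : 0 ≤ mm s := Real.smoothTransition.nonneg _

lemma mm_le_one (s : ℝ) : mm s ≤ 1 := Real.smoothTransition.le_one _

lemma mm_contDiff {n : ℕ∞} : ContDiff ℝ n mm := by
  unfold mm
  apply Real.smoothTransition.contDiff.comp
  fun_prop

lemma mm_mono : Monotone mm := by
  intro a b hab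
  unfold mm
  apply Real.smoothTransition.monotone
  linarith

lemma hasDerivAt_mm (s : ℝ) : HasDerivAt mm (md s) s :=
  (mm_contDiff (n := 1)).differentiable (by simp) s |>.hasDerivAt

lemma md_contDiff : ContDiff ℝ 1 md := by
  have h : ContDiff ℝ (1 + 1) mm := (mm_contDiff (n := 2)).of_le (by norm_num)
  have := (contDiff_succ_iff_deriv.1 h).2.2
  exact this

lemma md_continuous : Continuous md := md_contDiff.continuous

lemma md_nonneg (s : ℝ) : 0 ≤ md s := mm_mono.deriv_nonneg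

lemma md_zero_left {s : ℝ} (h : s < 1 / 4) : md s = 0 := by
  unfold md
  have : mm =ᶠ[𝓝 s] fun _ => 0 := by
    filter_upwards [gt_mem_nhds h] with t ht
    exact mm_zero ht.le
  rw [this.deriv_eq]
  simp

lemma md_zero_right {s : ℝ} (h : 1 < s) : md s = 0 := by
  unfold md
  have : mm =ᶠ[𝓝 s] fun _ => 1 := by
    filter_upwards [lt_mem_nhds h] with t ht
    exact mm_one ht.le
  rw [this.deriv_eq]
  simp

lemma md_support {s : ℝ} (h : s ∉ Icc (0:ℝ) 1) : md s = 0 := by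
  rw [mem_Icc, not_and_or, not_le, not_le] at h
  rcases h with h | h
  · exact md_zero_left (by linarith)
  · exact md_zero_right h

lemma md_bound : ∃ C : ℝ, 0 ≤ C ∧ ∀ s, |md s| ≤ C := by
  obtain ⟨C, hC⟩ := isCompact_Icc.exists_bound_of_continuousOn (f := md) (s := Icc (0:ℝ) 1)
    md_continuous.continuousOn
  refine ⟨max C 0, le_max_right _ _, fun s => ?_⟩
  by_cases h : s ∈ Icc (0:ℝ) 1
  · have := hC s h
    rw [Real.norm_eq_abs] at this
    exact this.trans (le_max_left _ _)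
  · rw [md_support h, abs_zero]
    exact le_max_right _ _

/-- mollified Cauchy kernel -/
noncomputable def KK (ε : ℝ) (ζ : ℂ) : ℂ := ((mm (‖ζ‖ ^ 2 / ε ^ 2) : ℝ) : ℂ) * ζ⁻¹

/-- its conjugate derivative -/
noncomputable def mu (ε : ℝ) (ζ : ℂ) : ℝ := md (‖ζ‖ ^ 2 / ε ^ 2) / ε ^ 2

/-- its complex derivative -/
noncomputable def AA (ε : ℝ) (ζ : ℂ) : ℂ :=
  (mu ε ζ : ℂ) * conj ζ * ζ⁻¹ - ((mm (‖ζ‖ ^ 2 / ε ^ 2) : ℝ) : ℂ) * ζ⁻¹ ^ 2

/-- `v ↦ a v + c conj v` -/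
noncomputable def Lin (a c : ℂ) : ℂ →L[ℝ] ℂ :=
  a • ContinuousLinearMap.id ℝ ℂ + c • Complex.conjCLE.toContinuousLinearMap

lemma Lin_apply (a c v : ℂ) : Lin a c v = a * v + c * conj v := by
  simp [Lin]

lemma norm_Lin_le (a c : ℂ) : ‖Lin a c‖ ≤ ‖a‖ + ‖c‖ := by
  apply ContinuousLinearMap.opNorm_le_bound _ (by positivity)
  intro v
  rw [Lin_apply]
  calc ‖a * v + c * conj v‖ ≤ ‖a * v‖ + ‖c * conj v‖ := norm_add_le _ _
    _ = (‖a‖ + ‖c‖) * ‖v‖ := by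
        rw [norm_mul, norm_mul, RCLike.norm_conj]; ring

lemma Lin_continuous {X : Type*} [TopologicalSpace X] {a c : X → ℂ} (ha : Continuous a)
    (hc : Continuous c) : Continuous fun x => Lin (a x) (c x) := by
  unfold Lin
  fun_prop

lemma mu_nonneg (ε : ℝ) (ζ : ℂ) : 0 ≤ mu ε ζ := div_nonneg (md_nonneg _) (sq_nonneg _)

lemma mu_zero {ε : ℝ} (hε : 0 < ε) {ζ : ℂ} (h : ε < ‖ζ‖) : mu ε ζ = 0 := by
  unfold mu
  rw [md_zero_right, zero_div]
  rw [one_lt_div (by positivity)]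
  gcongr

lemma mu_zero_near {ε : ℝ} (hε : 0 < ε) {ζ : ℂ} (h : ‖ζ‖ < ε / 2) : mu ε ζ = 0 := by
  unfold mu
  rw [md_zero_left, zero_div]
  rw [div_lt_iff₀ (by positivity)]
  have : ‖ζ‖ ^ 2 < (ε / 2) ^ 2 := by gcongr
  linarith

lemma KK_zero_near {ε : ℝ} (hε : 0 < ε) {ζ : ℂ} (h : ‖ζ‖ < ε / 2) : KK ε ζ = 0 := by
  unfold KK
  rw [mm_zero, Complex.ofReal_zero, zero_mul]
  rw [div_le_iff₀ (by positivity)]
  have : ‖ζ‖ ^ 2 < (ε / 2) ^ 2 := by gcongr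
  linarith

lemma AA_zero_near {ε : ℝ} (hε : 0 < ε) {ζ : ℂ} (h : ‖ζ‖ < ε / 2) : AA ε ζ = 0 := by
  unfold AA
  rw [mu_zero_near hε h, mm_zero]
  · simp
  rw [div_le_iff₀ (by positivity)]
  have : ‖ζ‖ ^ 2 < (ε / 2) ^ 2 := by gcongr
  linarith

lemma norm_KK_le (ε : ℝ) (ζ : ℂ) : ‖KK ε ζ‖ ≤ ‖ζ‖⁻¹ := by
  unfold KK
  rw [norm_mul, norm_inv, Complex.norm_real, Real.norm_eq_abs, abs_of_nonneg (mm_nonneg _)]
  exact mul_le_of_le_one_left (by positivity) (mm_le_one _)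

lemma norm_KK_le' {ε : ℝ} (hε : 0 < ε) (ζ : ℂ) : ‖KK ε ζ‖ ≤ 2 / ε := by
  by_cases h : ‖ζ‖ < ε / 2
  · rw [KK_zero_near hε h, norm_zero]; positivity
  · push Not at h
    refine (norm_KK_le ε ζ).trans ?_
    rw [show (2:ℝ) / ε = (ε / 2)⁻¹ by rw [inv_div]]
    exact inv_anti₀ (by positivity) h

lemma hasFDerivAt_KK {ε : ℝ} (hε : 0 < ε) (ζ : ℂ) :
    HasFDerivAt (KK ε) (Lin (AA ε ζ) (mu ε ζ)) ζ := by
  by_cases h0 : ‖ζ‖ < ε / 2
  · rw [AA_zero_near hε h0, mu_zero_near hε h0]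
    have e : Lin 0 ((0:ℝ):ℂ) = 0 := by
      apply ContinuousLinearMap.ext
      intro v
      simp [Lin_apply]
    rw [e]
    have h1 : KK ε =ᶠ[𝓝 ζ] fun _ => 0 := by
      have : ∀ᶠ z in 𝓝 ζ, ‖z‖ < ε / 2 := continuous_norm.continuousAt.eventually (gt_mem_nhds h0)
      filter_upwards [this] with z hz
      exact KK_zero_near hε hz
    exact (hasFDerivAt_const (0:ℂ) ζ).congr_of_eventuallyEq h1
  · have hζ : ζ ≠ 0 := by
      intro h
      rw [h, norm_zero] at h0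
      exact h0 (by positivity)
    have hn : HasFDerivAt (fun z : ℂ => ‖z‖ ^ 2) (2 • (innerSL ℝ ζ)) ζ :=
      (hasStrictFDerivAt_norm_sq ζ).hasFDerivAt
    have h1 : HasFDerivAt (fun z : ℂ => ‖z‖ ^ 2 / ε ^ 2) ((ε ^ 2)⁻¹ • (2 • (innerSL ℝ ζ))) ζ := by
      have := hn.const_smul ((ε ^ 2)⁻¹)
      refine this.congr_of_eventuallyEq (Eventually.of_forall fun z => ?_)
      simp only [smul_eq_mul, Pi.smul_apply]
      rw [div_eq_inv_mul]
    have h2 : HasFDerivAt (fun z : ℂ => mm (‖z‖ ^ 2 / ε ^ 2))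
        (md (‖ζ‖ ^ 2 / ε ^ 2) • ((ε ^ 2)⁻¹ • (2 • (innerSL ℝ ζ)))) ζ :=
      (hasDerivAt_mm _).comp_hasFDerivAt ζ h1
    have h3 : HasFDerivAt (fun z : ℂ => ((mm (‖z‖ ^ 2 / ε ^ 2) : ℝ) : ℂ))
        (Complex.ofRealCLM.comp (md (‖ζ‖ ^ 2 / ε ^ 2) • ((ε ^ 2)⁻¹ • (2 • (innerSL ℝ ζ))))) ζ :=
      Complex.ofRealCLM.hasFDerivAt.comp ζ h2
    have h4 : HasFDerivAt (fun z : ℂ => z⁻¹)
        ((ContinuousLinearMap.toSpanSingleton ℂ (-(ζ ^ 2)⁻¹)).restrictScalars ℝ) ζ :=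
      (hasDerivAt_inv hζ).hasFDerivAt.restrictScalars ℝ
    have h5 := h3.mul h4
    refine h5.congr_fderiv ?_
    apply ContinuousLinearMap.ext
    intro v
    rw [Lin_apply]
    simp only [add_apply, smul_apply, ContinuousLinearMap.comp_apply,
      ContinuousLinearMap.coe_restrictScalars', ContinuousLinearMap.toSpanSingleton_apply, innerSL_apply_apply,
      Complex.ofRealCLM_apply, smul_eq_mul, nsmul_eq_mul, Complex.inner]
    have hre : (((v * conj ζ).re : ℝ) : ℂ) = (v * conj ζ + conj v * ζ) / 2 := by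
      rw [Complex.re_eq_add_conj, map_mul, Complex.conj_conj]
    unfold AA mu
    push_cast
    rw [hre]
    field_simp
    ring

lemma mu_continuous (ε : ℝ) : Continuous (mu ε) := by
  unfold mu
  exact (md_continuous.comp (by fun_prop)).div_const _

lemma mu_contDiff (ε : ℝ) : ContDiff ℝ 1 (mu ε) := by
  unfold mu
  apply ContDiff.div_const
  apply md_contDiff.comp
  apply ContDiff.div_const
  exact contDiff_norm_sq ℝ

lemma AA_continuous {ε : ℝ} (hε : 0 < ε) : Continuous (AA ε) := by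
  rw [continuous_iff_continuousAt]
  intro ζ
  by_cases h0 : ‖ζ‖ < ε / 2
  · have h1 : AA ε =ᶠ[𝓝 ζ] fun _ => 0 := by
      have : ∀ᶠ z in 𝓝 ζ, ‖z‖ < ε / 2 := continuous_norm.continuousAt.eventually (gt_mem_nhds h0)
      filter_upwards [this] with z hz
      exact AA_zero_near hε hz
    exact continuousAt_const.congr h1.symm
  · have hζ : ζ ≠ 0 := by
      intro h
      rw [h, norm_zero] at h0
      exact h0 (by positivity)
    have hi : ContinuousAt (fun z : ℂ => z⁻¹) ζ := continuousAt_inv₀ hζ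
    have hmu : ContinuousAt (fun z : ℂ => ((mu ε z : ℝ) : ℂ)) ζ :=
      (Complex.continuous_ofReal.comp (mu_continuous ε)).continuousAt
    have hmm : Continuous (fun z : ℂ => ((mm (‖z‖ ^ 2 / ε ^ 2) : ℝ) : ℂ)) := by
      apply Complex.continuous_ofReal.comp
      apply (mm_contDiff (n := 0)).continuous.comp
      fun_prop
    unfold AA
    exact ((hmu.mul Complex.continuous_conj.continuousAt).mul hi).sub (hmm.continuousAt.mul (hi.pow 2))

lemma KK_continuous {ε : ℝ} (hε : 0 < ε) : Continuous (KK ε) := by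
  rw [continuous_iff_continuousAt]
  intro ζ
  exact (hasFDerivAt_KK hε ζ).continuousAt

lemma mu_le (C : ℝ) (hC : ∀ s, |md s| ≤ C) {ε : ℝ} (hε : 0 < ε) (ζ : ℂ) : mu ε ζ ≤ C / ε ^ 2 := by
  unfold mu
  gcongr
  exact (le_abs_self _).trans (hC _)

lemma norm_AA_le (C : ℝ) (hC : ∀ s, |md s| ≤ C) {ε : ℝ} (hε : 0 < ε) (ζ : ℂ) :
    ‖AA ε ζ‖ ≤ C / ε ^ 2 + 4 / ε ^ 2 := by
  by_cases h0 : ‖ζ‖ < ε / 2
  · rw [AA_zero_near hε h0, norm_zero]
    have : 0 ≤ C := (abs_nonneg _).trans (hC 0)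
    positivity
  · push Not at h0
    have hζ0 : 0 < ‖ζ‖ := lt_of_lt_of_le (by positivity) h0
    unfold AA
    refine (norm_sub_le _ _).trans ?_
    gcongr
    · rw [norm_mul, norm_mul, norm_inv, RCLike.norm_conj, mul_assoc, mul_inv_cancel₀ hζ0.ne', mul_one,
        Complex.norm_real, Real.norm_eq_abs, abs_of_nonneg (mu_nonneg ε ζ)]
      exact mu_le C hC hε ζ
    · rw [norm_mul, norm_pow, norm_inv, Complex.norm_real, Real.norm_eq_abs, abs_of_nonneg (mm_nonneg _)]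
      calc mm (‖ζ‖ ^ 2 / ε ^ 2) * ‖ζ‖⁻¹ ^ 2 ≤ 1 * ((ε / 2)⁻¹) ^ 2 := by
            gcongr
            exact mm_le_one _
        _ = 4 / ε ^ 2 := by field_simp; norm_num

lemma mu_hasCompactSupport {ε : ℝ} (hε : 0 < ε) : HasCompactSupport (mu ε) := by
  apply HasCompactSupport.intro (isCompact_closedBall (0:ℂ) ε)
  intro ζ hζ
  rw [mem_closedBall, dist_zero_right, not_le] at hζ
  exact mu_zero hε hζ

lemma mu_integrable {ε : ℝ} (hε : 0 < ε) : Integrable (mu ε) :=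
  (mu_continuous ε).integrable_of_hasCompactSupport (mu_hasCompactSupport hε)

lemma mu_scale {δ : ℝ} (hδ : 0 < δ) (ζ : ℂ) : mu δ ζ = (δ ^ 2)⁻¹ * mu 1 (δ⁻¹ • ζ) := by
  unfold mu
  rw [norm_smul, norm_inv, Real.norm_eq_abs, abs_of_pos hδ]
  have : (δ⁻¹ * ‖ζ‖) ^ 2 / 1 ^ 2 = ‖ζ‖ ^ 2 / δ ^ 2 := by field_simp
  rw [this]
  field_simp

lemma fderiv_mu_bound : ∃ C : ℝ, 0 ≤ C ∧ ∀ δ : ℝ, 0 < δ → ∀ ζ, ‖fderiv ℝ (mu δ) ζ‖ ≤ C / δ ^ 3 := by
  have hc : Continuous (fderiv ℝ (mu 1)) := (mu_contDiff 1).continuous_fderiv (by simp)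
  have hs : HasCompactSupport (fderiv ℝ (mu 1)) := (mu_hasCompactSupport one_pos).fderiv ℝ
  obtain ⟨C, hC⟩ := hc.bounded_above_of_compact_support hs
  refine ⟨C, (norm_nonneg _).trans (hC 0), fun δ hδ ζ => ?_⟩
  have e : mu δ = fun ζ => (δ ^ 2)⁻¹ • mu 1 (δ⁻¹ • ζ) := by
    ext ζ
    rw [mu_scale hδ ζ, smul_eq_mul]
  have h1 : HasFDerivAt (fun ζ : ℂ => δ⁻¹ • ζ) (δ⁻¹ • ContinuousLinearMap.id ℝ ℂ) ζ :=
    (hasFDerivAt_id ζ).const_smul δ⁻¹
  have h2 : HasFDerivAt (mu 1) (fderiv ℝ (mu 1) (δ⁻¹ • ζ)) (δ⁻¹ • ζ) :=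
    ((mu_contDiff 1).differentiable (by simp) _).hasFDerivAt
  have h3 := (h2.comp ζ h1).const_smul ((δ ^ 2)⁻¹)
  have h4 : fderiv ℝ (mu δ) ζ = (δ ^ 2)⁻¹ • ((fderiv ℝ (mu 1) (δ⁻¹ • ζ)).comp (δ⁻¹ • ContinuousLinearMap.id ℝ ℂ)) := by
    rw [e]
    exact h3.fderiv
  rw [h4, norm_smul, Real.norm_eq_abs, abs_of_pos (by positivity)]
  have h5 : ‖(fderiv ℝ (mu 1) (δ⁻¹ • ζ)).comp (δ⁻¹ • ContinuousLinearMap.id ℝ ℂ)‖ ≤ C * δ⁻¹ := by
    refine (ContinuousLinearMap.opNorm_comp_le _ _).trans ?_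
    have h6 : ‖δ⁻¹ • ContinuousLinearMap.id ℝ ℂ‖ ≤ δ⁻¹ := by
      rw [norm_smul, Real.norm_eq_abs, abs_of_pos (by positivity)]
      exact mul_le_of_le_one_right (by positivity) ContinuousLinearMap.norm_id_le
    exact mul_le_mul (hC _) h6 (norm_nonneg _) ((norm_nonneg _).trans (hC 0))
  calc (δ ^ 2)⁻¹ * ‖(fderiv ℝ (mu 1) (δ⁻¹ • ζ)).comp (δ⁻¹ • ContinuousLinearMap.id ℝ ℂ)‖
      ≤ (δ ^ 2)⁻¹ * (C * δ⁻¹) := by gcongr
    _ = C / δ ^ 3 := by field_simp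

lemma integral_mu {ε : ℝ} (hε : 0 < ε) : ∫ ζ, mu ε ζ = Real.pi := by
  rw [← Complex.integral_comp_polarCoord_symm]
  have e1 : ∀ p : ℝ × ℝ, p ∈ polarCoord.target →
      p.1 • mu ε (Complex.polarCoord.symm p) = (p.1 * (md (p.1 ^ 2 / ε ^ 2) / ε ^ 2)) * 1 := by
    rintro ⟨r, θ⟩ hp
    simp only [polarCoord_target, mem_prod, mem_Ioi, mem_Ioo] at hp
    have : ‖Complex.polarCoord.symm (r, θ)‖ = r := by
      rw [Complex.norm_polarCoord_symm, abs_of_pos hp.1]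
    unfold mu
    rw [this, smul_eq_mul, mul_one]
  rw [setIntegral_congr_fun polarCoord.open_target.measurableSet e1]
  rw [polarCoord_target, Measure.volume_eq_prod, setIntegral_prod_mul
    (fun r : ℝ => r * (md (r ^ 2 / ε ^ 2) / ε ^ 2)) (fun _ : ℝ => (1:ℝ)) (Ioi 0) (Ioo (-Real.pi) Real.pi)]
  have e2 : ∫ _ in Ioo (-Real.pi) Real.pi, (1:ℝ) = 2 * Real.pi := by
    rw [setIntegral_const, Measure.real, Real.volume_Ioo, smul_eq_mul, mul_one,
      ENNReal.toReal_ofReal (by linarith [Real.pi_pos])]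
    ring
  rw [e2]
  have e3 : ∫ r in Ioi (0:ℝ), r * (md (r ^ 2 / ε ^ 2) / ε ^ 2) = 1 / 2 := by
    have hd : ∀ r ∈ Ici (0:ℝ), HasDerivAt (fun r : ℝ => mm (r ^ 2 / ε ^ 2) / 2) (r * (md (r ^ 2 / ε ^ 2) / ε ^ 2)) r := by
      intro r _
      have h1 : HasDerivAt (fun r : ℝ => r ^ 2 / ε ^ 2) (2 * r / ε ^ 2) r := by
        have := (hasDerivAt_pow 2 r).div_const (ε ^ 2)
        simpa using this
      have h2 := ((hasDerivAt_mm (r ^ 2 / ε ^ 2)).comp r h1).div_const 2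
      have e : r * (md (r ^ 2 / ε ^ 2) / ε ^ 2) = md (r ^ 2 / ε ^ 2) * (2 * r / ε ^ 2) / 2 := by ring
      rw [e]
      exact h2
    have ht : Tendsto (fun r : ℝ => mm (r ^ 2 / ε ^ 2) / 2) atTop (𝓝 (1 / 2)) := by
      apply tendsto_const_nhds.congr'
      filter_upwards [eventually_ge_atTop ε] with r hr
      rw [mm_one]
      rw [one_le_div (by positivity)]
      gcongr
    have := integral_Ioi_of_hasDerivAt_of_nonneg' hd (fun r hr => ?_) ht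
    · rw [this]
      have : mm ((0:ℝ) ^ 2 / ε ^ 2) = 0 := mm_zero (by norm_num)
      rw [this]
      norm_num
    · have hr' : 0 < r := hr
      have := md_nonneg (r ^ 2 / ε ^ 2)
      positivity
  rw [e3]
  ring

end Pool.Agent.Helper57.Reg
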