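import Pool.Agent.Helper57.Reg.Poly

/-!
# Conclusion: every function of `A^(1)(X)` is in `D^(1)(X)`
-/

set_option autoImplicit false

namespace Pool.Agent.Helper57.Reg

open Filter MeasureTheory Metric Set Topology

lemma chain_exists {g : ℝ → ℂ} (hg : ContinuousOn g (Icc 0 1)) {ρ : ℝ} (hρ : 0 < ρ) :
    ∃ m : ℕ, 0 < m ∧ ∀ i < m, ‖g ((i + 1 : ℕ) / (m:ℝ)) - g ((i:ℕ) / (m:ℝ))‖ < ρ := by
  have huc := isCompact_Icc.uniformContinuousOn_of_continuous hg
  rw [Metric.uniformContinuousOn_iff] at huc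
  obtain ⟨d, hd, h⟩ := huc ρ hρ
  obtain ⟨m, hm⟩ := exists_nat_gt (1 / d)
  have hm0 : (0:ℝ) < m := lt_trans (by positivity) hm
  refine ⟨m, by exact_mod_cast hm0, fun i hi => ?_⟩
  rw [← dist_eq_norm]
  have hi' : (i:ℝ) + 1 ≤ m := by exact_mod_cast hi
  apply h
  · constructor
    · positivity
    · rw [div_le_one hm0]; push_cast; exact hi'
  · constructor
    · positivity
    · rw [div_le_one hm0]; linarith
  · rw [Real.dist_eq, ← sub_div]
    push_cast
    rw [add_sub_cancel_left, abs_of_pos (by positivity)]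
    exact (one_div_lt hd hm0).1 hm

lemma interior_chain {X : Set ℂ} (hint : IsConnected (interior X)) {w z : ℂ} (hw : w ∈ interior X)
    (hz : z ∈ interior X) : ∃ (m : ℕ) (q : ℕ → ℂ), q 0 = w ∧ q m = z ∧
      ∀ i < m, ∀ t ∈ Icc (0:ℝ) 1, q i + t * (q (i + 1) - q i) ∈ interior X := by
  have hpc : IsPathConnected (interior X) := (isOpen_interior.isConnected_iff_isPathConnected).1 hint
  obtain ⟨γ, hγ⟩ := hpc.joinedIn _ hw _ hz
  have hK : IsCompact (range γ) := isCompact_range γ.continuous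
  obtain ⟨ρ, hρ, hth⟩ := hK.exists_thickening_subset_open isOpen_interior (by
    rintro _ ⟨t, rfl⟩
    exact hγ t)
  obtain ⟨m, hm, hstep⟩ := chain_exists (g := γ.extend) γ.continuous_extend.continuousOn hρ
  have hm0 : (0:ℝ) < m := by exact_mod_cast hm
  refine ⟨m, fun i => γ.extend (i / m), ?_, ?_, ?_⟩
  · simp
  · simp only [div_self hm0.ne']
    exact γ.extend_one
  · intro i hi t ht
    apply hth
    rw [mem_thickening_iff]
    have hmem : γ.extend ((i:ℕ) / (m:ℝ)) ∈ range γ := by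
      have hi' : (i:ℝ) / m ∈ Icc (0:ℝ) 1 := by
        constructor
        · positivity
        · rw [div_le_one hm0]
          exact_mod_cast hi.le
      rw [Path.extend_apply γ hi']
      exact mem_range_self _
    refine ⟨_, hmem, ?_⟩
    rw [dist_eq_norm, add_sub_cancel_left, norm_mul, Complex.norm_real, Real.norm_eq_abs, abs_of_nonneg ht.1]
    exact lt_of_le_of_lt (mul_le_of_le_one_left (norm_nonneg _) ht.2) (hstep i hi)

lemma cycle_key {X : Set ℂ} (hX : IsCompact X) (hne : X.Nonempty) (hconn : IsConnected Xᶜ)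
    (hint : IsConnected (interior X)) {f F : ℂ → ℂ} {R' : ℝ} (hF : CC F R')
    (hfd : DifferentiableOn ℂ f (interior X)) (hFf : ∀ u ∈ interior X, F u = deriv f u)
    {w z : ℂ} (hw : w ∈ interior X) (hz : z ∈ interior X) {γ : ℝ → ℂ} {K M : ℝ} (hK : 0 ≤ K)
    (hγc : ContinuousOn γ (Icc 0 1)) (hγ0 : γ 0 = w) (hγ1 : γ 1 = z) (hγX : ∀ t ∈ Icc (0:ℝ) 1, γ t ∈ X)
    (hvar : eVariationOn γ (Icc 0 1) ≤ ENNReal.ofReal K) (hM : ∀ u, ‖u - w‖ ≤ K → ‖F u - F w‖ ≤ M) :
    ‖f z - f w - F w * (z - w)‖ ≤ M * K := by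
  obtain ⟨C, hC0, hC⟩ := cycle_bound
  obtain ⟨m, q, hq0, hqm, hq⟩ := interior_chain hint hw hz
  set Lq := ∑ i ∈ Finset.range m, ‖q (i + 1) - q i‖ with hLq
  have hLq0 : 0 ≤ Lq := Finset.sum_nonneg fun i _ => norm_nonneg _
  have hM0 : 0 ≤ M := (norm_nonneg _).trans (hM w (by simpa using hK))
  have hFd : DifferentiableOn ℂ F (interior X) :=
    ((hfd.deriv isOpen_interior)).congr fun u hu => hFf u hu
  apply le_of_forall_pos_le_add
  intro κ hκ
  set ω := κ / (C * (K + Lq) + 1) with hω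
  have hden : 0 < C * (K + Lq) + 1 := by positivity
  have hω0 : 0 < ω := by positivity
  have hωκ : C * ω * (K + Lq) ≤ κ := by
    have : C * ω * (K + Lq) = κ * ((C * (K + Lq)) / (C * (K + Lq) + 1)) := by rw [hω]; field_simp
    rw [this]
    apply mul_le_of_le_one_right hκ.le
    rw [div_le_one hden]; linarith
  -- uniform continuity
  have huc : UniformContinuous F := hF.cont.uniformContinuous_of_tendsto_cocompact (x := 0) hF.hasCompactSupport.is_zero_at_infty
  obtain ⟨d, hd, hd2⟩ := Metric.uniformContinuous_iff.1 huc ω hω0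
  obtain ⟨η, hη, H⟩ := hC X hX hne hconn F R' hF hFd (d / 2) ω (by positivity) (by
    intro u v huv
    have := hd2 (a := u) (b := v) (by rw [dist_eq_norm]; linarith)
    rw [dist_eq_norm] at this
    exact this.le)
  obtain ⟨n, hn, hstep⟩ := chain_exists hγc hη
  have hn0 : (0:ℝ) < n := by exact_mod_cast hn
  set p : ℕ → ℂ := fun i => γ (i / n) with hp
  have hmem : ∀ i ≤ n, (i:ℝ) / n ∈ Icc (0:ℝ) 1 := by
    intro i hi
    constructor
    · positivity
    · rw [div_le_one hn0]
      exact_mod_cast hi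
  have hp0 : p 0 = w := by simp [hp, hγ0]
  have hpn : p n = z := by simp only [hp, div_self hn0.ne', hγ1]
  -- length of the chain
  have hlen : ∑ i ∈ Finset.range n, ‖p (i + 1) - p i‖ ≤ K := by
    have h1 : ∑ i ∈ Finset.range n, edist (γ (((i + 1 : ℕ) : ℝ) / n)) (γ ((i : ℝ) / n)) ≤
        eVariationOn γ (Icc 0 1) := by
      apply eVariationOn.sum_le_of_monotoneOn_Iic (u := fun i : ℕ => (i:ℝ) / n)
      · intro i _ j _ hij
        simp only
        gcongr
      · intro i hi
        exact hmem i hi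
    have h2 : ENNReal.ofReal (∑ i ∈ Finset.range n, ‖p (i + 1) - p i‖) ≤ ENNReal.ofReal K := by
      refine le_trans (le_of_eq ?_) (h1.trans hvar)
      rw [ENNReal.ofReal_sum_of_nonneg (fun i _ => norm_nonneg _)]
      refine Finset.sum_congr rfl fun i _ => ?_
      rw [edist_dist, dist_eq_norm]
    exact (ENNReal.ofReal_le_ofReal_iff hK).1 h2
  -- points of the chain are within `K` of `w`
  have hdist : ∀ i ≤ n, ‖p i - w‖ ≤ K := by
    intro i hi
    have h1 : edist (γ ((i:ℝ) / n)) (γ 0) ≤ eVariationOn γ (Icc 0 1) :=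
      eVariationOn.edist_le γ (hmem i hi) (by simp)
    have h2 : ENNReal.ofReal ‖p i - w‖ ≤ ENNReal.ofReal K := by
      refine le_trans (le_of_eq ?_) (h1.trans hvar)
      rw [edist_dist, dist_eq_norm, hγ0]
    exact (ENNReal.ofReal_le_ofReal_iff hK).1 h2
  have hseg : ∀ i < n, ∀ t ∈ Icc (0:ℝ) 1, ‖p i + t * (p (i + 1) - p i) - w‖ ≤ K := by
    intro i hi t ht
    have e : p i + t * (p (i + 1) - p i) - w = ((1 - t : ℝ) : ℂ) * (p i - w) + (t : ℂ) * (p (i + 1) - w) := by
      push_cast; ring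
    rw [e]
    calc _ ≤ ‖((1 - t : ℝ) : ℂ) * (p i - w)‖ + ‖(t : ℂ) * (p (i + 1) - w)‖ := norm_add_le _ _
      _ = (1 - t) * ‖p i - w‖ + t * ‖p (i + 1) - w‖ := by
          rw [norm_mul, norm_mul, Complex.norm_real, Complex.norm_real, Real.norm_eq_abs, Real.norm_eq_abs,
            abs_of_nonneg (by linarith [ht.2]), abs_of_nonneg ht.1]
      _ ≤ (1 - t) * K + t * K := by
          gcongr
          · linarith [ht.2]
          · exact hdist i hi.le
          · exact ht.1
          · exact hdist (i + 1) hi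
      _ = K := by ring
  have hcb := chain_bound hF H p q (n := n) (m := m) (hp0.trans hq0.symm) (hpn.trans hqm.symm)
    (by
      intro i hi t ht
      have h1 : infDist (p i + t * (p (i + 1) - p i)) X ≤ dist (p i + t * (p (i + 1) - p i)) (p i) :=
        infDist_le_dist_of_mem (hγX _ (hmem i hi.le))
      refine h1.trans ?_
      rw [dist_eq_norm, add_sub_cancel_left, norm_mul, Complex.norm_real, Real.norm_eq_abs, abs_of_nonneg ht.1]
      exact (mul_le_of_le_one_left (norm_nonneg _) ht.2).trans (hstep i hi).le)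
    (by
      intro i hi t ht
      rw [infDist_zero_of_mem (interior_subset (hq i hi t ht))]
      exact hη.le)
  have hq1 : ∑ i ∈ Finset.range m, LI F (q i) (q (i + 1)) = f z - f w := by
    rw [← hqm, ← hq0, ← Finset.sum_range_sub (fun i => f (q i))]
    refine Finset.sum_congr rfl fun i hi => ?_
    exact LI_eq_sub isOpen_interior hfd hF.cont hFf (hq i (Finset.mem_range.1 hi))
  have hp1 : ‖(∑ i ∈ Finset.range n, LI F (p i) (p (i + 1))) - F w * (z - w)‖ ≤ M * K := by
    have e1 : F w * (z - w) = ∑ i ∈ Finset.range n, F w * (p (i + 1) - p i) := by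
      rw [← Finset.mul_sum, Finset.sum_range_sub (fun i => p i), hpn, hp0]
    rw [e1, ← Finset.sum_sub_distrib]
    calc ‖∑ i ∈ Finset.range n, (LI F (p i) (p (i + 1)) - F w * (p (i + 1) - p i))‖
        ≤ ∑ i ∈ Finset.range n, ‖LI F (p i) (p (i + 1)) - F w * (p (i + 1) - p i)‖ := norm_sum_le _ _
      _ ≤ ∑ i ∈ Finset.range n, M * ‖p (i + 1) - p i‖ := by
          apply Finset.sum_le_sum
          intro i hi
          have hi' := Finset.mem_range.1 hi
          have hc : Continuous fun t : ℝ => F (p i + t * (p (i + 1) - p i)) * (p (i + 1) - p i) :=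
            (hF.cont.comp (by fun_prop)).mul continuous_const
          have e2 : LI F (p i) (p (i + 1)) - F w * (p (i + 1) - p i) =
              ∫ t in (0:ℝ)..1, (F (p i + t * (p (i + 1) - p i)) - F w) * (p (i + 1) - p i) := by
            simp_rw [sub_mul]
            rw [intervalIntegral.integral_sub (hc.intervalIntegrable _ _) (by simp)]
            unfold LI
            simp
          rw [e2]
          have h3 := intervalIntegral.norm_integral_le_of_norm_le_const (a := 0) (b := 1)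
            (f := fun t : ℝ => (F (p i + t * (p (i + 1) - p i)) - F w) * (p (i + 1) - p i))
            (C := M * ‖p (i + 1) - p i‖) (by
              intro t ht
              rw [uIoc_of_le zero_le_one] at ht
              rw [norm_mul]
              gcongr
              exact hM _ (hseg i hi' t ⟨ht.1.le, ht.2⟩))
          simpa using h3
      _ = M * ∑ i ∈ Finset.range n, ‖p (i + 1) - p i‖ := by rw [Finset.mul_sum]
      _ ≤ M * K := by gcongr
  rw [hq1] at hcb
  have hcb2 : ‖(∑ i ∈ Finset.range n, LI F (p i) (p (i + 1))) - (f z - f w)‖ ≤ κ := by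
    refine hcb.trans (le_trans ?_ hωκ)
    gcongr
  calc ‖f z - f w - F w * (z - w)‖
      = ‖((∑ i ∈ Finset.range n, LI F (p i) (p (i + 1))) - F w * (z - w)) -
          ((∑ i ∈ Finset.range n, LI F (p i) (p (i + 1))) - (f z - f w))‖ := by congr 1; ring
    _ ≤ M * K + κ := (norm_sub_le _ _).trans (add_le_add hp1 hcb2)

lemma exists_ext {X : Set ℂ} (hX : IsCompact X) {F₀ : ℂ → ℂ} (hF₀ : ContinuousOn F₀ X) :
    ∃ (F : ℂ → ℂ) (R : ℝ), CC F R ∧ ∀ u ∈ X, F u = F₀ u := by
  obtain ⟨R, hR⟩ := hX.isBounded.subset_closedBall (0:ℂ)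
  obtain ⟨g, hg⟩ := ContinuousMap.exists_restrict_eq hX.isClosed (⟨X.domRestrict F₀, hF₀.domRestrict⟩ : C(X, ℂ))
  refine ⟨fun u => ((max 0 (min 1 (R + 1 - ‖u‖)) : ℝ) : ℂ) * g u, R + 1, ⟨?_, ?_⟩, ?_⟩
  · apply Continuous.mul
    · apply Complex.continuous_ofReal.comp
      fun_prop
    · exact g.continuous
  · intro u hu
    have : max 0 (min 1 (R + 1 - ‖u‖)) = 0 := by
      apply max_eq_left
      exact (min_le_right _ _).trans (by linarith)
    simp only [this]
    simp
  · intro u hu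
    have h1 := hR hu
    rw [mem_closedBall, dist_zero_right] at h1
    have h2 : max 0 (min 1 (R + 1 - ‖u‖)) = 1 := by
      rw [min_eq_left (by linarith), max_eq_right zero_le_one]
    have h3 : g u = F₀ u := by
      exact DFunLike.congr_fun hg ⟨u, hu⟩
    simp only [h2, h3]
    simp

theorem main {X : Set ℂ} (hX : IsCompact X) (hne : X.Nonempty) (hconn : IsConnected Xᶜ)
    (hint : IsConnected (interior X)) (hdense : X ⊆ closure (interior X)) {k : ℝ} (hk : 0 < k)
    (hreg : ∀ z ∈ X, ∀ w ∈ X, ∃ γ : ℝ → ℂ, ContinuousOn γ (Icc 0 1) ∧ γ 0 = z ∧ γ 1 = w ∧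
      (∀ t ∈ Icc (0:ℝ) 1, γ t ∈ X) ∧ eVariationOn γ (Icc 0 1) ≤ ENNReal.ofReal (k * ‖z - w‖))
    {f F₀ : ℂ → ℂ} (hf : ContinuousOn f X) (hfd : DifferentiableOn ℂ f (interior X))
    (hF₀ : ContinuousOn F₀ X) (hF₀d : ∀ u ∈ interior X, F₀ u = deriv f u) :
    ∀ a ∈ X, HasDerivWithinAt f (F₀ a) X a := by
  obtain ⟨F, R', hF, hFX⟩ := exists_ext hX hF₀
  have hFf : ∀ u ∈ interior X, F u = deriv f u := fun u hu => by
    rw [hFX u (interior_subset hu), hF₀d u hu]
  have huc : UniformContinuous F := hF.cont.uniformContinuous_of_tendsto_cocompact (x := 0) hF.hasCompactSupport.is_zero_at_infty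
  intro a ha
  rw [hasDerivWithinAt_iff_isLittleO, Asymptotics.isLittleO_iff]
  intro c hc
  obtain ⟨d, hd, hd2⟩ := Metric.uniformContinuous_iff.1 huc (c / k) (by positivity)
  -- interior estimate
  have hin : ∀ z ∈ interior X, ∀ w ∈ interior X, k * ‖z - w‖ < d →
      ‖f z - f w - F w * (z - w)‖ ≤ c * ‖z - w‖ := by
    intro z hz w hw hzw
    obtain ⟨γ, h1, h2, h3, h4, h5⟩ := hreg w (interior_subset hw) z (interior_subset hz)
    rw [norm_sub_rev] at h5
    have := cycle_key hX hne hconn hint hF hfd hFf hw hz (K := k * ‖z - w‖) (M := c / k) (by positivity)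
      h1 h2 h3 h4 h5 (by
        intro u hu
        have h6 := hd2 (a := u) (b := w) (by rw [dist_eq_norm]; linarith)
        rw [dist_eq_norm] at h6
        exact h6.le)
    refine this.trans (le_of_eq ?_)
    field_simp
  have hev : ∀ᶠ z in 𝓝[X] a, k * ‖z - a‖ < d := by
    have h1 : Tendsto (fun z : ℂ => k * ‖z - a‖) (𝓝[X] a) (𝓝 0) := by
      have h2 : Continuous fun z : ℂ => k * ‖z - a‖ := by fun_prop
      have h3 := h2.tendsto a
      simp only [sub_self, norm_zero, mul_zero] at h3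
      exact h3.mono_left nhdsWithin_le_nhds
    exact h1.eventually (gt_mem_nhds hd)
  filter_upwards [hev, self_mem_nhdsWithin] with z hz hzX
  obtain ⟨zn, hzn, hznlim⟩ := mem_closure_iff_seq_limit.1 (hdense hzX)
  obtain ⟨wn, hwn, hwnlim⟩ := mem_closure_iff_seq_limit.1 (hdense ha)
  have hfz : Tendsto (fun n => f (zn n)) atTop (𝓝 (f z)) := by
    apply (hf z hzX).tendsto.comp
    exact tendsto_nhdsWithin_iff.2 ⟨hznlim, Eventually.of_forall fun n => interior_subset (hzn n)⟩
  have hfw : Tendsto (fun n => f (wn n)) atTop (𝓝 (f a)) := by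
    apply (hf a ha).tendsto.comp
    exact tendsto_nhdsWithin_iff.2 ⟨hwnlim, Eventually.of_forall fun n => interior_subset (hwn n)⟩
  have hFw : Tendsto (fun n => F (wn n)) atTop (𝓝 (F a)) := (hF.cont.tendsto a).comp hwnlim
  have hL : Tendsto (fun n => ‖f (zn n) - f (wn n) - F (wn n) * (zn n - wn n)‖) atTop
      (𝓝 ‖f z - f a - F a * (z - a)‖) :=
    ((hfz.sub hfw).sub (hFw.mul (hznlim.sub hwnlim))).norm
  have hR : Tendsto (fun n => c * ‖zn n - wn n‖) atTop (𝓝 (c * ‖z - a‖)) :=
    ((hznlim.sub hwnlim).norm).const_mul c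
  have hsmall : ∀ᶠ n in atTop, k * ‖zn n - wn n‖ < d :=
    (((hznlim.sub hwnlim).norm).const_mul k).eventually (gt_mem_nhds hz)
  have hle := le_of_tendsto_of_tendsto hL hR (by
    filter_upwards [hsmall] with n hn
    exact hin _ (hzn n) _ (hwn n) hn)
  rw [hFX a ha] at hle
  have e : f z - f a - (z - a) • F₀ a = f z - f a - F₀ a * (z - a) := by rw [smul_eq_mul]; ring
  rw [e]
  exact hle

end Pool.Agent.Helper57.Reg
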