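import Pool.Agent.Helper57.Reg.Kern

/-!
# Mollification
-/

set_option autoImplicit false

namespace Pool.Agent.Helper57.Reg

open Filter MeasureTheory Metric Set Topology
open scoped ComplexConjugate

/-- mollification at scale `ρ` -/
noncomputable def Sm (ρ : ℝ) (G : ℂ → ℂ) (w : ℂ) : ℂ :=
  (Real.pi : ℂ)⁻¹ * ∫ u, G u * (mu ρ (w - u) : ℂ)

/-- continuous and vanishing off a ball -/
structure CC (G : ℂ → ℂ) (R : ℝ) : Prop where
  cont : Continuous G
  supp : ∀ u, R < ‖u‖ → G u = 0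

lemma CC.hasCompactSupport {G : ℂ → ℂ} {R : ℝ} (h : CC G R) : HasCompactSupport G := by
  apply HasCompactSupport.intro (isCompact_closedBall (0:ℂ) R)
  intro u hu
  rw [mem_closedBall, dist_zero_right, not_le] at hu
  exact h.supp u hu

lemma CC.integrable {G : ℂ → ℂ} {R : ℝ} (h : CC G R) : Integrable G :=
  h.cont.integrable_of_hasCompactSupport h.hasCompactSupport

lemma CC.integrable_mul {G : ℂ → ℂ} {R : ℝ} (h : CC G R) {g : ℂ → ℂ} (hg : Continuous g) :
    Integrable (fun u => G u * g u) := by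
  apply (h.cont.mul hg).integrable_of_hasCompactSupport
  exact h.hasCompactSupport.mul_right

lemma muC_continuous (ρ : ℝ) (w : ℂ) : Continuous fun u : ℂ => ((mu ρ (w - u) : ℝ) : ℂ) :=
  Complex.continuous_ofReal.comp ((mu_continuous ρ).comp (by fun_prop))

lemma integral_mu_sub {ρ : ℝ} (hρ : 0 < ρ) (w : ℂ) : ∫ u, mu ρ (w - u) = Real.pi := by
  rw [integral_sub_left_eq_self (fun u => mu ρ u)]
  exact integral_mu hρ

lemma integral_muC_sub {ρ : ℝ} (hρ : 0 < ρ) (w : ℂ) : ∫ u, ((mu ρ (w - u) : ℝ) : ℂ) = (Real.pi : ℂ) := by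
  rw [integral_complex_ofReal, integral_mu_sub hρ]

lemma pi_ne : (Real.pi : ℂ) ≠ 0 := by exact_mod_cast Real.pi_ne_zero

lemma norm_pi_inv : ‖(Real.pi : ℂ)⁻¹‖ = Real.pi⁻¹ := by
  rw [norm_inv, Complex.norm_real, Real.norm_eq_abs, abs_of_pos Real.pi_pos]

lemma mu_integrable_sub {ρ : ℝ} (hρ : 0 < ρ) (w : ℂ) : Integrable fun u => mu ρ (w - u) :=
  (mu_integrable hρ).comp_sub_left w

/-- if `‖g u‖ ≤ ω mu ρ (w - u)` then the normalised integral is at most `ω` -/
lemma norm_le_of_mu {ρ : ℝ} (hρ : 0 < ρ) {w : ℂ} {g : ℂ → ℂ} {ω : ℝ}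
    (hg : ∀ u, ‖g u‖ ≤ ω * mu ρ (w - u)) : ‖(Real.pi : ℂ)⁻¹ * ∫ u, g u‖ ≤ ω := by
  rw [norm_mul, norm_pi_inv, inv_mul_le_iff₀ Real.pi_pos]
  calc ‖∫ u, g u‖ ≤ ∫ u, ω * mu ρ (w - u) :=
        norm_integral_le_of_norm_le ((mu_integrable_sub hρ w).const_mul ω) (Eventually.of_forall hg)
    _ = Real.pi * ω := by rw [integral_const_mul, integral_mu_sub hρ]; ring

lemma Sm_close {ρ : ℝ} (hρ : 0 < ρ) {G : ℂ → ℂ} {R : ℝ} (hG : CC G R) {ω : ℝ}
    (hmod : ∀ u v, ‖u - v‖ ≤ ρ → ‖G u - G v‖ ≤ ω) (w : ℂ) : ‖Sm ρ G w - G w‖ ≤ ω := by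
  have hω : 0 ≤ ω := (norm_nonneg _).trans (hmod w w (by simpa using hρ.le))
  have i1 : Integrable fun u => G u * (mu ρ (w - u) : ℂ) := hG.integrable_mul (muC_continuous ρ w)
  have i2 : Integrable fun u => G w * (mu ρ (w - u) : ℂ) := ((mu_integrable_sub hρ w).ofReal).const_mul _
  have e : Sm ρ G w - G w = (Real.pi : ℂ)⁻¹ * ∫ u, (G u - G w) * (mu ρ (w - u) : ℂ) := by
    have e1 : ∫ u, (G u - G w) * (mu ρ (w - u) : ℂ) = (∫ u, G u * (mu ρ (w - u) : ℂ)) - G w * Real.pi := by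
      simp_rw [sub_mul]
      rw [integral_sub i1 i2, integral_const_mul, integral_muC_sub hρ]
    rw [e1, mul_sub]
    unfold Sm
    congr 1
    field_simp [pi_ne]
  rw [e]
  apply norm_le_of_mu hρ (w := w)
  intro u
  rw [norm_mul, Complex.norm_real, Real.norm_eq_abs, abs_of_nonneg (mu_nonneg _ _)]
  by_cases h : ‖u - w‖ ≤ ρ
  · gcongr
    · exact mu_nonneg _ _
    · exact hmod u w h
  · push Not at h
    rw [norm_sub_rev] at h
    rw [mu_zero hρ h]; simp

lemma Sm_eq_shift {ρ : ℝ} (G : ℂ → ℂ) (w : ℂ) :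
    Sm ρ G w = (Real.pi : ℂ)⁻¹ * ∫ u, G (w - u) * (mu ρ u : ℂ) := by
  unfold Sm
  congr 1
  rw [← integral_sub_left_eq_self (fun u => G u * (mu ρ (w - u) : ℂ)) _ w]
  congr 1
  ext u
  rw [sub_sub_cancel]

lemma Sm_modulus {ρ : ℝ} (hρ : 0 < ρ) {G : ℂ → ℂ} {R : ℝ} (hG : CC G R) {ω d : ℝ}
    (hmod : ∀ u v, ‖u - v‖ ≤ d → ‖G u - G v‖ ≤ ω) (u v : ℂ) (huv : ‖u - v‖ ≤ d) :
    ‖Sm ρ G u - Sm ρ G v‖ ≤ ω := by
  have hmuc : Continuous fun t : ℂ => ((mu ρ t : ℝ) : ℂ) := Complex.continuous_ofReal.comp (mu_continuous ρ)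
  have hmus : HasCompactSupport fun t : ℂ => ((mu ρ t : ℝ) : ℂ) := by
    exact (mu_hasCompactSupport hρ).comp_left (g := fun x : ℝ => (x : ℂ)) (by simp)
  have i : ∀ w : ℂ, Integrable fun t => G (w - t) * (mu ρ t : ℂ) := by
    intro w
    apply ((hG.cont.comp (by fun_prop)).mul hmuc).integrable_of_hasCompactSupport
    exact hmus.mul_left
  rw [Sm_eq_shift, Sm_eq_shift, ← mul_sub, ← integral_sub (i u) (i v)]
  have h0 : ∀ t, G (u - t) * (mu ρ t : ℂ) - G (v - t) * (mu ρ t : ℂ) =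
      (G (u - t) - G (v - t)) * (mu ρ t : ℂ) := fun t => by ring
  simp_rw [h0]
  rw [norm_mul, norm_pi_inv, inv_mul_le_iff₀ Real.pi_pos]
  calc ‖∫ t, (G (u - t) - G (v - t)) * (mu ρ t : ℂ)‖ ≤ ∫ t, ω * mu ρ t := by
        apply norm_integral_le_of_norm_le ((mu_integrable hρ).const_mul ω)
        filter_upwards with t
        rw [norm_mul, Complex.norm_real, Real.norm_eq_abs, abs_of_nonneg (mu_nonneg _ _)]
        gcongr
        · exact mu_nonneg _ _
        · apply hmod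
          rwa [sub_sub_sub_cancel_right]
    _ = Real.pi * ω := by rw [integral_const_mul, integral_mu hρ]; ring

lemma Sm_supp {ρ : ℝ} (hρ : 0 < ρ) {G : ℂ → ℂ} {R : ℝ} (hG : CC G R) {w : ℂ} (hw : R + ρ < ‖w‖) :
    Sm ρ G w = 0 := by
  unfold Sm
  have : ∀ u, G u * (mu ρ (w - u) : ℂ) = 0 := by
    intro u
    by_cases h : R < ‖u‖
    · rw [hG.supp u h, zero_mul]
    · push Not at h
      have h1 : ρ < ‖w - u‖ := by
        have := norm_sub_norm_le w u
        linarith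
      rw [mu_zero hρ h1]; simp
  simp [this]

/-- derivative of the mollification -/
noncomputable def Sm' (ρ : ℝ) (G : ℂ → ℂ) (w : ℂ) : ℂ →L[ℝ] ℂ :=
  (Real.pi : ℂ)⁻¹ • ∫ u, G u • (Complex.ofRealCLM.comp (fderiv ℝ (mu ρ) (w - u)))

lemma Sm_int' {ρ : ℝ} (_hρ : 0 < ρ) {G : ℂ → ℂ} {R : ℝ} (hG : CC G R) (w : ℂ) :
    Integrable fun u => G u • (Complex.ofRealCLM.comp (fderiv ℝ (mu ρ) (w - u))) := by
  have hc0 : Continuous fun u => fderiv ℝ (mu ρ) (w - u) :=
    ((mu_contDiff ρ).continuous_fderiv (by simp)).comp (continuous_sub_left w)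
  have hc : Continuous fun u => (Complex.ofRealCLM.comp (fderiv ℝ (mu ρ) (w - u))) :=
    continuous_const.clm_comp hc0
  have h1 : Continuous fun u => G u • (Complex.ofRealCLM.comp (fderiv ℝ (mu ρ) (w - u))) :=
    hG.cont.smul hc
  have h2 : HasCompactSupport fun u => G u • (Complex.ofRealCLM.comp (fderiv ℝ (mu ρ) (w - u))) := by
    apply HasCompactSupport.intro (isCompact_closedBall (0:ℂ) R)
    intro u hu
    rw [mem_closedBall, dist_zero_right, not_le] at hu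
    rw [hG.supp u hu]
    refine ContinuousLinearMap.ext fun v => ?_
    simp
  exact h1.integrable_of_hasCompactSupport h2

lemma norm_comp_ofReal_le (L : ℂ →L[ℝ] ℝ) : ‖Complex.ofRealCLM.comp L‖ ≤ ‖L‖ := by
  apply ContinuousLinearMap.opNorm_le_bound _ (norm_nonneg _)
  intro v
  rw [ContinuousLinearMap.comp_apply, Complex.ofRealCLM_apply, Complex.norm_real]
  exact L.le_opNorm v

lemma hasFDerivAt_Sm {ρ : ℝ} (hρ : 0 < ρ) {G : ℂ → ℂ} {R : ℝ} (hG : CC G R) (w : ℂ) :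
    HasFDerivAt (Sm ρ G) (Sm' ρ G w) w := by
  obtain ⟨C, hC0, hC⟩ := fderiv_mu_bound
  unfold Sm Sm'
  apply HasFDerivAt.const_mul
  refine hasFDerivAt_integral_of_dominated_of_fderiv_le (s := univ)
    (F := fun w u => G u * (mu ρ (w - u) : ℂ))
    (F' := fun w u => G u • (Complex.ofRealCLM.comp (fderiv ℝ (mu ρ) (w - u))))
    (bound := fun u => ‖G u‖ * (C / ρ ^ 3)) univ_mem ?_ ?_ ?_ ?_ ?_ ?_
  · filter_upwards with w'
    exact (hG.integrable_mul (muC_continuous ρ w')).aestronglyMeasurable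
  · exact hG.integrable_mul (muC_continuous ρ w)
  · exact (Sm_int' hρ hG w).aestronglyMeasurable
  · filter_upwards with u w' _
    rw [norm_smul]
    gcongr
    exact (norm_comp_ofReal_le _).trans (hC ρ hρ _)
  · exact hG.integrable.norm.mul_const _
  · filter_upwards with u w' _
    have h1 : HasFDerivAt (fun w' : ℂ => w' - u) (ContinuousLinearMap.id ℝ ℂ) w' :=
      (hasFDerivAt_id w').sub_const u
    have h2 : HasFDerivAt (mu ρ) (fderiv ℝ (mu ρ) (w' - u)) (w' - u) :=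
      ((mu_contDiff ρ).differentiable (by simp) _).hasFDerivAt
    have h3 := h2.comp w' h1
    rw [ContinuousLinearMap.comp_id] at h3
    have h4 := (Complex.ofRealCLM.hasFDerivAt.comp w' h3).const_mul (G u)
    exact h4

lemma Sm'_apply {ρ : ℝ} (hρ : 0 < ρ) {G : ℂ → ℂ} {R : ℝ} (hG : CC G R) (w v : ℂ) :
    Sm' ρ G w v = (Real.pi : ℂ)⁻¹ * ∫ u, G u * (fderiv ℝ (mu ρ) (w - u) v : ℂ) := by
  unfold Sm'
  rw [smul_apply, ContinuousLinearMap.integral_apply (Sm_int' hρ hG w), smul_eq_mul]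
  congr 1

lemma fderiv_mu_zero {ρ : ℝ} (hρ : 0 < ρ) {ζ : ℂ} (h : ρ < ‖ζ‖) : fderiv ℝ (mu ρ) ζ = 0 := by
  have h1 : mu ρ =ᶠ[𝓝 ζ] fun _ => 0 := by
    have : ∀ᶠ z in 𝓝 ζ, ρ < ‖z‖ := continuous_norm.continuousAt.eventually (lt_mem_nhds h)
    filter_upwards [this] with z hz
    exact mu_zero hρ hz
  rw [h1.fderiv_eq]
  simp

lemma integral_fderiv_mu {ρ : ℝ} (hρ : 0 < ρ) (w v : ℂ) : ∫ u, fderiv ℝ (mu ρ) (w - u) v = 0 := by
  rw [integral_sub_left_eq_self (fun u => fderiv ℝ (mu ρ) u v)]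
  have hc : Continuous fun u => fderiv ℝ (mu ρ) u v :=
    ((mu_contDiff ρ).continuous_fderiv (by simp)).clm_apply continuous_const
  have hs : HasCompactSupport fun u => fderiv ℝ (mu ρ) u v := by
    apply ((mu_hasCompactSupport hρ).fderiv ℝ).comp_left (g := fun L : ℂ →L[ℝ] ℝ => L v)
    simp
  have := integral_mul_fderiv_eq_neg_fderiv_mul_of_integrable (μ := volume) (f := fun _ : ℂ => (1:ℝ)) (g := mu ρ) (v := v)
    (by simp) (by simpa using hc.integrable_of_hasCompactSupport hs) (by simpa using mu_integrable hρ)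
    (fun x _ => differentiableAt_const _) (fun x _ => (mu_contDiff ρ).differentiable (by simp) _)
  simpa using this

lemma Sm'_le : ∃ C : ℝ, 0 ≤ C ∧ ∀ (ρ : ℝ), 0 < ρ → ∀ (G : ℂ → ℂ) (R : ℝ), CC G R → ∀ ω : ℝ,
    (∀ u v, ‖u - v‖ ≤ ρ → ‖G u - G v‖ ≤ ω) → ∀ w v : ℂ, ‖Sm' ρ G w v‖ ≤ C * ω / ρ * ‖v‖ := by
  obtain ⟨C, hC0, hC⟩ := fderiv_mu_bound
  refine ⟨C, hC0, fun ρ hρ G R hG ω hmod w v => ?_⟩
  have hω : 0 ≤ ω := (norm_nonneg _).trans (hmod w w (by simpa using hρ.le))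
  have hc : Continuous fun u : ℂ => ((fderiv ℝ (mu ρ) (w - u) v : ℝ) : ℂ) := by
    apply Complex.continuous_ofReal.comp
    have h1 : Continuous fun u => fderiv ℝ (mu ρ) u v :=
      ((mu_contDiff ρ).continuous_fderiv (by simp)).clm_apply continuous_const
    exact h1.comp (by fun_prop)
  have hs : HasCompactSupport fun u : ℂ => ((fderiv ℝ (mu ρ) (w - u) v : ℝ) : ℂ) := by
    apply HasCompactSupport.intro (isCompact_closedBall w ρ)
    intro u hu
    rw [mem_closedBall, dist_eq_norm, not_le, norm_sub_rev] at hu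
    rw [fderiv_mu_zero hρ hu]; simp
  have i2 : Integrable fun u : ℂ => ((fderiv ℝ (mu ρ) (w - u) v : ℝ) : ℂ) :=
    hc.integrable_of_hasCompactSupport hs
  have i1 : Integrable fun u : ℂ => G u * ((fderiv ℝ (mu ρ) (w - u) v : ℝ) : ℂ) := hG.integrable_mul hc
  have e : ∫ u, G u * ((fderiv ℝ (mu ρ) (w - u) v : ℝ) : ℂ) =
      ∫ u, (G u - G w) * ((fderiv ℝ (mu ρ) (w - u) v : ℝ) : ℂ) := by
    simp_rw [sub_mul]
    rw [integral_sub i1 (i2.const_mul _), integral_const_mul, integral_complex_ofReal, integral_fderiv_mu hρ]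
    simp
  rw [Sm'_apply hρ hG, e, norm_mul, norm_pi_inv, inv_mul_le_iff₀ Real.pi_pos]
  have hbd : ∀ u, ‖(G u - G w) * ((fderiv ℝ (mu ρ) (w - u) v : ℝ) : ℂ)‖ ≤
      (closedBall w ρ).indicator (fun _ => ω * (C / ρ ^ 3 * ‖v‖)) u := by
    intro u
    by_cases h : u ∈ closedBall w ρ
    · rw [indicator_of_mem h, norm_mul, Complex.norm_real]
      rw [mem_closedBall, dist_eq_norm] at h
      have h1 : ‖fderiv ℝ (mu ρ) (w - u) v‖ ≤ C / ρ ^ 3 * ‖v‖ :=
        ((fderiv ℝ (mu ρ) (w - u)).le_opNorm v).trans (by gcongr; exact hC ρ hρ _)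
      exact mul_le_mul (hmod u w h) h1 (norm_nonneg _) hω
    · rw [indicator_of_notMem h]
      rw [mem_closedBall, dist_eq_norm, not_le, norm_sub_rev] at h
      rw [fderiv_mu_zero hρ h]; simp
  have hvol : (volume : Measure ℂ).real (closedBall w ρ) = Real.pi * ρ ^ 2 := by
    rw [Measure.real, Complex.volume_closedBall, ENNReal.toReal_mul, ENNReal.toReal_pow,
      ENNReal.toReal_ofReal hρ.le, mul_comm]
    rfl
  calc ‖∫ u, (G u - G w) * ((fderiv ℝ (mu ρ) (w - u) v : ℝ) : ℂ)‖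
      ≤ ∫ u, (closedBall w ρ).indicator (fun _ => ω * (C / ρ ^ 3 * ‖v‖)) u := by
        apply norm_integral_le_of_norm_le _ (Eventually.of_forall hbd)
        rw [integrable_indicator_iff measurableSet_closedBall]
        exact integrableOn_const measure_closedBall_lt_top.ne
    _ = Real.pi * ρ ^ 2 * (ω * (C / ρ ^ 3 * ‖v‖)) := by
        rw [integral_indicator measurableSet_closedBall, setIntegral_const, hvol, smul_eq_mul]
    _ = Real.pi * (C * ω / ρ * ‖v‖) := by field_simp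

/-- conjugate derivative of the mollification -/
noncomputable def dbar (ρ : ℝ) (G : ℂ → ℂ) (w : ℂ) : ℂ :=
  (1 / 2) * (Sm' ρ G w 1 + Complex.I * Sm' ρ G w Complex.I)

lemma dbar_zero_of_far {ρ : ℝ} (hρ : 0 < ρ) {G : ℂ → ℂ} {R : ℝ} (hG : CC G R) {w : ℂ} (hw : R + ρ < ‖w‖) :
    dbar ρ G w = 0 := by
  have h1 : Sm ρ G =ᶠ[𝓝 w] fun _ => 0 := by
    have : ∀ᶠ z in 𝓝 w, R + ρ < ‖z‖ := continuous_norm.continuousAt.eventually (lt_mem_nhds hw)
    filter_upwards [this] with z hz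
    exact Sm_supp hρ hG hz
  have h2 : Sm' ρ G w = 0 := by
    rw [← (hasFDerivAt_Sm hρ hG w).fderiv, h1.fderiv_eq]
    simp
  unfold dbar
  rw [h2]; simp

lemma dbar_zero_of_analytic {ρ : ℝ} (hρ : 0 < ρ) {G : ℂ → ℂ} {R : ℝ} (hG : CC G R) {U : Set ℂ}
    (hU : IsOpen U) (hdiff : DifferentiableOn ℂ G U) {w : ℂ} {d : ℝ} (hd : ρ < d) (hball : ball w d ⊆ U) :
    dbar ρ G w = 0 := by
  have hmuc : Continuous fun t : ℂ => ((mu ρ t : ℝ) : ℂ) := Complex.continuous_ofReal.comp (mu_continuous ρ)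
  have hmus : HasCompactSupport fun t : ℂ => ((mu ρ t : ℝ) : ℂ) := by
    exact (mu_hasCompactSupport hρ).comp_left (g := fun x : ℝ => (x : ℂ)) (by simp)
  have i : ∀ w : ℂ, Integrable fun t => G (w - t) * (mu ρ t : ℂ) := by
    intro w
    apply ((hG.cont.comp (by fun_prop)).mul hmuc).integrable_of_hasCompactSupport
    exact hmus.mul_left
  set r := (d - ρ) / 2 with hr
  have hr0 : 0 < r := by rw [hr]; linarith
  have hcb : closedBall w (ρ + r) ⊆ U := (closedBall_subset_ball (by rw [hr]; linarith)).trans hball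
  have hdc : ContinuousOn (deriv G) U := (hdiff.deriv hU).continuousOn
  obtain ⟨M, hM⟩ := (isCompact_closedBall w (ρ + r)).exists_bound_of_continuousOn (hdc.mono hcb)
  have hM0 : 0 ≤ M := (norm_nonneg _).trans (hM w (mem_closedBall_self (by positivity)))
  have hder : HasDerivAt (fun w' => ∫ t, G (w' - t) * (mu ρ t : ℂ))
      (∫ t, deriv G (w - t) * (mu ρ t : ℂ)) w := by
    refine (hasDerivAt_integral_of_dominated_loc_of_deriv_le (s := ball w r)
      (F := fun w' t => G (w' - t) * (mu ρ t : ℂ)) (F' := fun w' t => deriv G (w' - t) * (mu ρ t : ℂ))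
      (bound := fun t => M * mu ρ t) (ball_mem_nhds w hr0) ?_ (i w) ?_ ?_ ?_ ?_).2
    · filter_upwards with w'
      exact (i w').aestronglyMeasurable
    · -- measurability of the derivative
      have : Measurable fun t : ℂ => deriv G (w - t) := (measurable_deriv G).comp (measurable_const_sub w)
      exact (this.mul hmuc.measurable).aestronglyMeasurable
    · filter_upwards with t w' hw'
      rw [norm_mul, Complex.norm_real, Real.norm_eq_abs, abs_of_nonneg (mu_nonneg _ _)]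
      by_cases h : ‖t‖ ≤ ρ
      · gcongr
        · exact mu_nonneg _ _
        · apply hM
          rw [mem_closedBall, dist_eq_norm]
          rw [mem_ball, dist_eq_norm] at hw'
          calc ‖w' - t - w‖ = ‖(w' - w) - t‖ := by congr 1; ring
            _ ≤ ‖w' - w‖ + ‖t‖ := norm_sub_le _ _
            _ ≤ ρ + r := by linarith
      · push Not at h
        rw [mu_zero hρ h]; simp
    · exact (mu_integrable hρ).const_mul M
    · filter_upwards with t w' hw'
      by_cases h : ‖t‖ ≤ ρ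
      · have hmem : w' - t ∈ U := by
          apply hcb
          rw [mem_closedBall, dist_eq_norm]
          rw [mem_ball, dist_eq_norm] at hw'
          calc ‖w' - t - w‖ = ‖(w' - w) - t‖ := by congr 1; ring
            _ ≤ ‖w' - w‖ + ‖t‖ := norm_sub_le _ _
            _ ≤ ρ + r := by linarith
        have h1 : HasDerivAt G (deriv G (w' - t)) (w' - t) :=
          ((hdiff _ hmem).differentiableAt (hU.mem_nhds hmem)).hasDerivAt
        exact (h1.comp_sub_const w' t).mul_const _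
      · push Not at h
        rw [mu_zero hρ h]
        simp only [Complex.ofReal_zero, mul_zero]
        exact hasDerivAt_const _ _
  have hder2 : HasDerivAt (Sm ρ G) ((Real.pi : ℂ)⁻¹ * ∫ t, deriv G (w - t) * (mu ρ t : ℂ)) w := by
    have := hder.const_mul (Real.pi : ℂ)⁻¹
    refine this.congr_of_eventuallyEq (Eventually.of_forall fun w' => ?_)
    exact Sm_eq_shift G w'
  have h3 := hder2.hasFDerivAt.restrictScalars ℝ
  have h4 : Sm' ρ G w = _ := (hasFDerivAt_Sm hρ hG w).unique h3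
  unfold dbar
  rw [h4]
  simp only [ContinuousLinearMap.coe_restrictScalars', ContinuousLinearMap.toSpanSingleton_apply, smul_eq_mul]
  ring_nf
  rw [Complex.I_sq]
  ring

end Pool.Agent.Helper57.Reg
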