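import Pool.Agent.Helper57.Reg.Moll
import Pool.Agent.Helper57.Reg.Comp

/-!
# Pairing of a cycle with a mollified function and the main estimate
-/

set_option autoImplicit false

namespace Pool.Agent.Helper57.Reg

open Filter MeasureTheory Metric Set Topology
open scoped ComplexConjugate

lemma Sm_CC {ρ : ℝ} (hρ : 0 < ρ) {G : ℂ → ℂ} {R : ℝ} (hG : CC G R) : CC (Sm ρ G) (R + ρ) := by
  refine ⟨?_, fun u hu => Sm_supp hρ hG hu⟩
  rw [continuous_iff_continuousAt]
  exact fun w => (hasFDerivAt_Sm hρ hG w).continuousAt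

lemma Sm'_continuous {ρ : ℝ} (hρ : 0 < ρ) {G : ℂ → ℂ} {R : ℝ} (hG : CC G R) : Continuous (Sm' ρ G) := by
  obtain ⟨C, hC0, hC⟩ := fderiv_mu_bound
  unfold Sm'
  have h : Continuous fun w => ∫ u, G u • (Complex.ofRealCLM.comp (fderiv ℝ (mu ρ) (w - u))) := by
    apply continuous_of_dominated (bound := fun u => ‖G u‖ * (C / ρ ^ 3))
    · intro w
      exact (Sm_int' hρ hG w).aestronglyMeasurable
    · intro w
      filter_upwards with u
      rw [norm_smul]
      gcongr
      exact (norm_comp_ofReal_le _).trans (hC ρ hρ _)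
    · exact hG.integrable.norm.mul_const _
    · filter_upwards with u
      have hc0 : Continuous fun w => fderiv ℝ (mu ρ) (w - u) :=
        ((mu_contDiff ρ).continuous_fderiv (by simp)).comp (continuous_sub_right u)
      have hc : Continuous fun w => (Complex.ofRealCLM.comp (fderiv ℝ (mu ρ) (w - u))) :=
        continuous_const.clm_comp hc0
      exact hc.const_smul (G u)
  exact h.const_smul ((Real.pi : ℂ)⁻¹)

lemma Sm'_zero_of_far {ρ : ℝ} (hρ : 0 < ρ) {G : ℂ → ℂ} {R : ℝ} (hG : CC G R) {w : ℂ} (hw : R + ρ < ‖w‖) :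
    Sm' ρ G w = 0 := by
  have h1 : Sm ρ G =ᶠ[𝓝 w] fun _ => 0 := by
    have : ∀ᶠ z in 𝓝 w, R + ρ < ‖z‖ := continuous_norm.continuousAt.eventually (lt_mem_nhds hw)
    filter_upwards [this] with z hz
    exact Sm_supp hρ hG hz
  rw [← (hasFDerivAt_Sm hρ hG w).fderiv, h1.fderiv_eq]
  simp

lemma Sm'_apply_CC {ρ : ℝ} (hρ : 0 < ρ) {G : ℂ → ℂ} {R : ℝ} (hG : CC G R) (v : ℂ) :
    CC (fun w => Sm' ρ G w v) (R + ρ) :=
  ⟨(Sm'_continuous hρ hG).clm_apply continuous_const, fun u hu => by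
    simp only [Sm'_zero_of_far hρ hG hu]; simp⟩

lemma dbar_CC {ρ : ℝ} (hρ : 0 < ρ) {G : ℂ → ℂ} {R : ℝ} (hG : CC G R) : CC (dbar ρ G) (R + ρ) := by
  refine ⟨?_, fun u hu => dbar_zero_of_far hρ hG hu⟩
  unfold dbar
  exact (((Sm'_apply_CC hρ hG 1).cont).add ((Sm'_apply_CC hρ hG Complex.I).cont.const_mul _)).const_mul _

lemma parts {ρ ε : ℝ} (hρ : 0 < ρ) (hε : 0 < ε) {G : ℂ → ℂ} {R : ℝ} (hG : CC G R) (z v : ℂ) :
    ∫ w, Sm' ρ G w v * KK ε (z - w) =
      ∫ w, Sm ρ G w * (AA ε (z - w) * v + (mu ε (z - w) : ℂ) * conj v) := by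
  have hKd : ∀ w, HasFDerivAt (fun w : ℂ => KK ε (z - w)) (-(Lin (AA ε (z - w)) (mu ε (z - w)))) w := by
    intro w
    have h1 : HasFDerivAt (fun w' : ℂ => z - w') (-(ContinuousLinearMap.id ℝ ℂ)) w := by
      simpa using (hasFDerivAt_id w).const_sub z
    have h2 := (hasFDerivAt_KK hε (z - w)).comp w h1
    refine h2.congr_fderiv ?_
    refine ContinuousLinearMap.ext fun v => ?_
    simp
  have hKc : Continuous fun w : ℂ => KK ε (z - w) := (KK_continuous hε).comp (by fun_prop)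
  have hAc : Continuous fun w : ℂ => AA ε (z - w) * v + (mu ε (z - w) : ℂ) * conj v := by
    have h1 : Continuous fun w : ℂ => AA ε (z - w) := (AA_continuous hε).comp (by fun_prop)
    have h2 : Continuous fun w : ℂ => ((mu ε (z - w) : ℝ) : ℂ) := muC_continuous ε z
    exact (h1.mul continuous_const).add (h2.mul continuous_const)
  have e1 : ∀ w, (-(Lin (AA ε (z - w)) (mu ε (z - w)))) v =
      -(AA ε (z - w) * v + (mu ε (z - w) : ℂ) * conj v) := by
    intro w
    rw [neg_apply, Lin_apply]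
  have key := integral_bilinear_hasFDerivAt_right_eq_neg_left_of_integrable (μ := (volume : Measure ℂ))
    (B := ContinuousLinearMap.mul ℝ ℂ) (f := Sm ρ G) (f' := Sm' ρ G) (g := fun w : ℂ => KK ε (z - w))
    (g' := fun w => -(Lin (AA ε (z - w)) (mu ε (z - w)))) (v := v)
    (by
      simp only [ContinuousLinearMap.mul_apply']
      exact (Sm'_apply_CC hρ hG v).integrable_mul hKc)
    (by
      simp only [ContinuousLinearMap.mul_apply', e1]
      exact (Sm_CC hρ hG).integrable_mul hAc.neg)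
    (by
      simp only [ContinuousLinearMap.mul_apply']
      exact (Sm_CC hρ hG).integrable_mul hKc)
    (fun x _ => hasFDerivAt_Sm hρ hG x) (fun x _ => hKd x)
  simp only [ContinuousLinearMap.mul_apply', e1] at key
  rw [eq_comm, neg_eq_iff_eq_neg] at key
  rw [key, ← integral_neg]
  congr 1
  ext w
  ring

lemma pair1 {ρ ε : ℝ} (hρ : 0 < ρ) (hε : 0 < ε) {G : ℂ → ℂ} {R : ℝ} (hG : CC G R) (z : ℂ) :
    ∫ w, dbar ρ G w * KK ε (z - w) = ∫ w, Sm ρ G w * (mu ε (z - w) : ℂ) := by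
  have hKc : Continuous fun w : ℂ => KK ε (z - w) := (KK_continuous hε).comp (by fun_prop)
  have h1 : Continuous fun w : ℂ => AA ε (z - w) := (AA_continuous hε).comp (by fun_prop)
  have h2 : Continuous fun w : ℂ => ((mu ε (z - w) : ℝ) : ℂ) := muC_continuous ε z
  have p1 := parts hρ hε hG z 1
  have pI := parts hρ hε hG z Complex.I
  have e : ∀ w, dbar ρ G w * KK ε (z - w) =
      (1 / 2) * (Sm' ρ G w 1 * KK ε (z - w)) + (1 / 2) * (Complex.I * (Sm' ρ G w Complex.I * KK ε (z - w))) := by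
    intro w
    unfold dbar
    ring
  simp_rw [e]
  rw [integral_add (((Sm'_apply_CC hρ hG 1).integrable_mul hKc).const_mul _)
    ((((Sm'_apply_CC hρ hG Complex.I).integrable_mul hKc).const_mul _).const_mul _),
    integral_const_mul, integral_const_mul, integral_const_mul, p1, pI, ← integral_const_mul, ← integral_const_mul,
    ← integral_const_mul, ← integral_add]
  · congr 1
    ext w
    simp only [map_one, Complex.conj_I]
    ring_nf
    rw [Complex.I_sq]
    ring
  · exact ((Sm_CC hρ hG).integrable_mul ((h1.mul continuous_const).add (h2.mul continuous_const))).const_mul _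
  · exact (((Sm_CC hρ hG).integrable_mul ((h1.mul continuous_const).add
      (h2.mul continuous_const))).const_mul _).const_mul _

section

variable {Λ : Type*} [MeasurableSpace Λ] {ν : Measure Λ} [IsFiniteMeasure ν] {z ζ : Λ → ℂ}

lemma pairing (D : Cyc ν z ζ) {ρ ε : ℝ} (hρ : 0 < ρ) (hε : 0 < ε) {G : ℂ → ℂ} {R : ℝ} (hG : CC G R) :
    ∫ l, Sm ε (Sm ρ G) (z l) * ζ l ∂ν = (Real.pi : ℂ)⁻¹ * ∫ w, dbar ρ G w * NN ν z ζ ε w := by
  have e1 : ∀ l, Sm ε (Sm ρ G) (z l) * ζ l =
      (Real.pi : ℂ)⁻¹ * ∫ w, dbar ρ G w * (KK ε (z l - w) * ζ l) := by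
    intro l
    have h0 : Sm ε (Sm ρ G) (z l) = (Real.pi : ℂ)⁻¹ * ∫ w, dbar ρ G w * KK ε (z l - w) := by
      rw [pair1 hρ hε hG]
      rfl
    rw [h0, mul_assoc, ← integral_mul_const]
    congr 2
    ext w
    ring
  simp_rw [e1]
  rw [integral_const_mul]
  congr 1
  have hm : Measurable fun p : Λ × ℂ => dbar ρ G p.2 * (KK ε (z p.1 - p.2) * ζ p.1) := by
    have m1 : Measurable fun p : Λ × ℂ => dbar ρ G p.2 := (dbar_CC hρ hG).cont.measurable.comp measurable_snd
    have m2 : Measurable fun p : Λ × ℂ => KK ε (z p.1 - p.2) :=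
      (KK_continuous hε).measurable.comp ((D.mz.comp measurable_fst).sub measurable_snd)
    have m3 : Measurable fun p : Λ × ℂ => ζ p.1 := D.mζ.comp measurable_fst
    exact m1.mul (m2.mul m3)
  have hint : Integrable (Function.uncurry fun (l : Λ) (w : ℂ) => dbar ρ G w * (KK ε (z l - w) * ζ l))
      (ν.prod volume) := by
    refine Integrable.mono' ((D.int.norm.mul_prod (dbar_CC hρ hG).integrable.norm).const_mul (2 / ε))
      hm.aestronglyMeasurable ?_
    filter_upwards with p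
    simp only [Function.uncurry]
    rw [norm_mul, norm_mul]
    calc ‖dbar ρ G p.2‖ * (‖KK ε (z p.1 - p.2)‖ * ‖ζ p.1‖)
        ≤ ‖dbar ρ G p.2‖ * ((2 / ε) * ‖ζ p.1‖) := by
          gcongr
          exact norm_KK_le' hε _
      _ = 2 / ε * (‖ζ p.1‖ * ‖dbar ρ G p.2‖) := by ring
  rw [integral_integral_swap hint]
  congr 1
  ext w
  rw [integral_const_mul]
  rfl

end

/-- the main estimate for cycles close to a polynomially convex set -/
theorem cycle_bound : ∃ C : ℝ, 0 ≤ C ∧ ∀ (X : Set ℂ), IsCompact X → X.Nonempty → IsConnected Xᶜ →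
    ∀ (F : ℂ → ℂ) (R' : ℝ), CC F R' → DifferentiableOn ℂ F (interior X) →
    ∀ (δ ω : ℝ), 0 < δ → (∀ u v, ‖u - v‖ ≤ δ → ‖F u - F v‖ ≤ ω) →
    ∃ η : ℝ, 0 < η ∧ ∀ (Λ : Type) [MeasurableSpace Λ] (ν : Measure Λ) [IsFiniteMeasure ν] (z ζ : Λ → ℂ),
      Cyc ν z ζ → (∀ l, infDist (z l) X ≤ η) → ‖∫ l, F (z l) * ζ l ∂ν‖ ≤ C * ω * ∫ l, ‖ζ l‖ ∂ν := by
  obtain ⟨C₁, hC₁0, hC₁⟩ := Sm'_le
  refine ⟨288 * C₁ + 2, by positivity, ?_⟩
  intro X hX hne hconn F R' hF hdiff δ ω hδ hmod
  have hω : 0 ≤ ω := (norm_nonneg _).trans (hmod 0 0 (by simpa using hδ.le))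
  obtain ⟨R₀, hR₀⟩ := hX.isBounded.subset_closedBall (0:ℂ)
  set R := max R₀ 0 with hRdef
  have hR0 : 0 ≤ R := le_max_right _ _
  have hR : X ⊆ closedBall 0 R := hR₀.trans (closedBall_subset_closedBall (le_max_left _ _))
  set W : Set ℂ := closedBall 0 (R' + δ) ∩ {w | infDist w Xᶜ ≤ δ} with hW
  have hWc : IsCompact W := (isCompact_closedBall _ _).inter_right
    (isClosed_le (continuous_infDist_pt _) continuous_const)
  obtain ⟨r, hr0, hr1, hr⟩ := cover hX hne hR0 hR hconn hδ hWc (fun w hw => hw.2)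
  refine ⟨r / 2, by positivity, ?_⟩
  intro Λ _ ν _ z ζ D hz
  set ε := min (r / 2) δ with hε
  have hε0 : 0 < ε := lt_min (by positivity) hδ
  have hεδ : ε ≤ δ := min_le_right _ _
  have hεr : r / 2 + ε ≤ r := by
    have : ε ≤ r / 2 := min_le_left _ _
    linarith
  set L := ∫ l, ‖ζ l‖ ∂ν with hL
  have hL0 : 0 ≤ L := integral_nonneg fun l => norm_nonneg _
  -- difference of `F` and the double mollification
  have hCC1 := Sm_CC hδ hF
  have hclose : ∀ u, ‖F u - Sm ε (Sm δ F) u‖ ≤ 2 * ω := by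
    intro u
    have h1 := Sm_close hδ hF hmod u
    have hmod' : ∀ u v, ‖u - v‖ ≤ ε → ‖Sm δ F u - Sm δ F v‖ ≤ ω :=
      fun u v huv => Sm_modulus hδ hF hmod u v (huv.trans hεδ)
    have h2 := Sm_close hε0 hCC1 hmod' u
    calc ‖F u - Sm ε (Sm δ F) u‖ = ‖-(Sm δ F u - F u) - (Sm ε (Sm δ F) u - Sm δ F u)‖ := by congr 1; ring
      _ ≤ ‖-(Sm δ F u - F u)‖ + ‖Sm ε (Sm δ F) u - Sm δ F u‖ := norm_sub_le _ _
      _ ≤ 2 * ω := by rw [norm_neg]; linarith
  have hCC2 := Sm_CC hε0 hCC1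
  have iF : Integrable (fun l => F (z l) * ζ l) ν := by
    obtain ⟨M, hM⟩ := hF.cont.bounded_above_of_compact_support hF.hasCompactSupport
    exact D.int.bdd_mul (c := M) (hF.cont.measurable.comp D.mz).aestronglyMeasurable
      (Eventually.of_forall fun l => hM _)
  have iS : Integrable (fun l => Sm ε (Sm δ F) (z l) * ζ l) ν := by
    obtain ⟨M, hM⟩ := hCC2.cont.bounded_above_of_compact_support hCC2.hasCompactSupport
    exact D.int.bdd_mul (c := M) (hCC2.cont.measurable.comp D.mz).aestronglyMeasurable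
      (Eventually.of_forall fun l => hM _)
  have hdiff1 : ‖(∫ l, F (z l) * ζ l ∂ν) - ∫ l, Sm ε (Sm δ F) (z l) * ζ l ∂ν‖ ≤ 2 * ω * L := by
    rw [← integral_sub iF iS, hL, ← integral_const_mul]
    apply norm_integral_le_of_norm_le (D.int.norm.const_mul _)
    filter_upwards with l
    rw [← sub_mul, norm_mul]
    gcongr
    exact hclose _
  -- the pairing
  set β : ℂ → ENNReal := fun w => ENNReal.ofReal (BB ν z ζ ε w) with hβ
  have hβm : Measurable β := (BB_continuous D hε0).measurable.ennreal_ofReal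
  have hdb : ∀ w, ‖dbar δ F w‖ ≤ C₁ * ω / δ := by
    intro w
    unfold dbar
    have h1 := hC₁ δ hδ F R' hF ω hmod w 1
    have h2 := hC₁ δ hδ F R' hF ω hmod w Complex.I
    rw [norm_one, mul_one] at h1
    rw [Complex.norm_I, mul_one] at h2
    rw [norm_mul]
    calc ‖(1 / 2 : ℂ)‖ * ‖Sm' δ F w 1 + Complex.I * Sm' δ F w Complex.I‖
        ≤ (1 / 2) * (‖Sm' δ F w 1‖ + ‖Complex.I * Sm' δ F w Complex.I‖) := by
          have : ‖(1 / 2 : ℂ)‖ = 1 / 2 := by norm_num
          rw [this]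
          gcongr
          exact norm_add_le _ _
      _ ≤ (1 / 2) * (C₁ * ω / δ + C₁ * ω / δ) := by
          rw [norm_mul, Complex.norm_I, one_mul]
          gcongr
      _ = _ := by ring
  have hpt : ∀ w, ENNReal.ofReal (‖dbar δ F w‖ * ‖NN ν z ζ ε w‖) ≤ ENNReal.ofReal (C₁ * ω / δ) * HS β δ w := by
    intro w
    by_cases h0 : dbar δ F w = 0
    · rw [h0, norm_zero, zero_mul, ENNReal.ofReal_zero]; exact zero_le
    · have hw1 : ‖w‖ ≤ R' + δ := by
        by_contra hcon
        push Not at hcon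
        exact h0 (dbar_zero_of_far hδ hF hcon)
      have hw2 : infDist w Xᶜ ≤ δ := by
        by_contra hcon
        push Not at hcon
        apply h0
        have hb : ball w (infDist w Xᶜ) ⊆ interior X := by
          apply interior_maximal _ isOpen_ball
          exact ball_infDist_compl_subset
        exact dbar_zero_of_analytic hδ hF isOpen_interior hdiff hcon hb
      have hwW : w ∈ W := ⟨by rw [mem_closedBall, dist_zero_right]; exact hw1, hw2⟩
      obtain ⟨s, hs, hsw⟩ := hr w hwW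
      set t : ℝ := max (R + 2) (‖w‖ + 4 * δ + 1) with ht
      have hp : (t : ℂ) ∈ GG X ((R + 2 : ℝ) : ℂ) r := far_mem_GG hne hR0 hR hr1 (le_max_left _ _)
      have hpw : 4 * δ < |((t:ℂ) - w).re| := by
        refine lt_of_lt_of_le ?_ (le_abs_self _)
        rw [Complex.sub_re, Complex.ofReal_re]
        have h1 : w.re ≤ ‖w‖ := Complex.re_le_norm w
        have h2 : ‖w‖ + 4 * δ + 1 ≤ t := le_max_right _ _
        linarith
      have hNN := zero_set_est hβm (fun w v hv h hh => line_est D hε0 w v hv hh) (GG_preconnected X _ r)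
        (fun u hu => NN_zero D hne hR0 hR hε0 (by positivity) hz hεr hr1 hu) hδ hs hsw hp hpw
      rw [ENNReal.ofReal_mul (norm_nonneg _)]
      exact mul_le_mul' (ENNReal.ofReal_le_ofReal (hdb w)) hNN
  have hpair : ‖∫ w, dbar δ F w * NN ν z ζ ε w‖ ≤ 288 * Real.pi * C₁ * ω * L := by
    have hNc : Continuous (NN ν z ζ ε) := by
      rw [continuous_iff_continuousAt]
      exact fun w => (hasFDerivAt_NN D hε0 w).continuousAt
    have hint : Integrable fun w => ‖dbar δ F w‖ * ‖NN ν z ζ ε w‖ := by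
      have := ((dbar_CC hδ hF).integrable_mul hNc).norm
      refine this.congr (Eventually.of_forall fun w => ?_)
      simp
    have h1 : ‖∫ w, dbar δ F w * NN ν z ζ ε w‖ ≤ ∫ w, ‖dbar δ F w‖ * ‖NN ν z ζ ε w‖ := by
      refine (norm_integral_le_integral_norm _).trans (le_of_eq ?_)
      congr 1
      ext w
      exact norm_mul _ _
    refine h1.trans ?_
    have h2 : ENNReal.ofReal (∫ w, ‖dbar δ F w‖ * ‖NN ν z ζ ε w‖) ≤
        ENNReal.ofReal (288 * Real.pi * C₁ * ω * L) := by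
      rw [ofReal_integral_eq_lintegral_ofReal hint (Eventually.of_forall fun w => by positivity)]
      calc ∫⁻ w, ENNReal.ofReal (‖dbar δ F w‖ * ‖NN ν z ζ ε w‖)
          ≤ ∫⁻ w, ENNReal.ofReal (C₁ * ω / δ) * HS β δ w := lintegral_mono hpt
        _ = ENNReal.ofReal (C₁ * ω / δ) * (ENNReal.ofReal (144 * δ) * ENNReal.ofReal (2 * Real.pi * L)) := by
            rw [lintegral_const_mul' _ _ ENNReal.ofReal_ne_top, HS_lintegral hβm hδ, BB_lintegral D hε0]
        _ = ENNReal.ofReal (288 * Real.pi * C₁ * ω * L) := by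
            rw [← ENNReal.ofReal_mul (by positivity), ← ENNReal.ofReal_mul (by positivity)]
            congr 1
            field_simp
            ring
    exact (ENNReal.ofReal_le_ofReal_iff (by positivity)).1 h2
  have hpair2 : ‖∫ l, Sm ε (Sm δ F) (z l) * ζ l ∂ν‖ ≤ 288 * C₁ * ω * L := by
    rw [pairing D hδ hε0 hF, norm_mul, norm_pi_inv, inv_mul_le_iff₀ Real.pi_pos]
    refine hpair.trans (le_of_eq ?_)
    ring
  calc ‖∫ l, F (z l) * ζ l ∂ν‖
      = ‖((∫ l, F (z l) * ζ l ∂ν) - ∫ l, Sm ε (Sm δ F) (z l) * ζ l ∂ν) + ∫ l, Sm ε (Sm δ F) (z l) * ζ l ∂ν‖ := by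
        rw [sub_add_cancel]
    _ ≤ 2 * ω * L + 288 * C₁ * ω * L := (norm_add_le _ _).trans (add_le_add hdiff1 hpair2)
    _ = _ := by ring

end Pool.Agent.Helper57.Reg
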