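import Pool.Agent.Helper57.Reg.Pair

/-!
# Polygonal cycles
-/

set_option autoImplicit false

namespace Pool.Agent.Helper57.Reg

open Filter MeasureTheory Metric Set Topology

/-- integral over a segment -/
noncomputable def LI (F : ℂ → ℂ) (a b : ℂ) : ℂ := ∫ t in (0:ℝ)..1, F (a + t * (b - a)) * (b - a)

/-- clamp to `[0,1]` -/
noncomputable def cl (t : ℝ) : ℝ := max 0 (min t 1)

lemma cl_mem (t : ℝ) : cl t ∈ Icc (0:ℝ) 1 := ⟨le_max_left _ _, max_le zero_le_one (min_le_right _ _)⟩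

lemma cl_eq {t : ℝ} (ht : t ∈ Icc (0:ℝ) 1) : cl t = t := by
  unfold cl
  rw [min_eq_left ht.2, max_eq_right ht.1]

lemma cl_continuous : Continuous cl := by unfold cl; fun_prop

lemma poly_bound {C : ℝ} {X : Set ℂ} {F : ℂ → ℂ} {R' ω η : ℝ} (hF : CC F R')
    (H : ∀ (Λ : Type) [MeasurableSpace Λ] (ν : Measure Λ) [IsFiniteMeasure ν] (z ζ : Λ → ℂ),
      Cyc ν z ζ → (∀ l, infDist (z l) X ≤ η) → ‖∫ l, F (z l) * ζ l ∂ν‖ ≤ C * ω * ∫ l, ‖ζ l‖ ∂ν)
    {ι : Type} [Fintype ι] (a b : ι → ℂ) (hcyc : ∀ g : ℂ → ℂ, ∑ i, (g (b i) - g (a i)) = 0)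
    (hX : ∀ i, ∀ t ∈ Icc (0:ℝ) 1, infDist (a i + t * (b i - a i)) X ≤ η) :
    ‖∑ i, LI F (a i) (b i)‖ ≤ C * ω * ∑ i, ‖b i - a i‖ := by
  let mι : MeasurableSpace ι := ⊤
  have hs : MeasurableSingletonClass ι := ⟨fun _ => trivial⟩
  set ν : Measure (ℝ × ι) := (volume.restrict (Icc (0:ℝ) 1)).prod Measure.count with hν
  set z : ℝ × ι → ℂ := fun l => a l.2 + (cl l.1 : ℂ) * (b l.2 - a l.2) with hz
  set ζ : ℝ × ι → ℂ := fun l => b l.2 - a l.2 with hζ
  have mz : Measurable z := by
    apply measurable_from_prod_countable_left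
    intro i
    have : Continuous fun t : ℝ => a i + (cl t : ℂ) * (b i - a i) := by
      have h : Continuous fun t : ℝ => ((cl t : ℝ) : ℂ) := Complex.continuous_ofReal.comp cl_continuous
      exact continuous_const.add (h.mul continuous_const)
    exact this.measurable
  have mζ : Measurable ζ := by
    apply measurable_from_prod_countable_left
    intro i
    change Measurable fun _ : ℝ => (b i - a i)
    exact measurable_const
  have hint : ∀ {E : Type} [NormedAddCommGroup E] [NormedSpace ℝ E] [CompleteSpace E] (f : ℝ × ι → E),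
      Integrable f ν → ∫ l, f l ∂ν = ∑ i, ∫ t in (0:ℝ)..1, f (t, i) := by
    intro E _ _ _ f hf
    rw [hν, integral_prod_symm f hf, integral_count]
    refine Finset.sum_congr rfl fun i _ => ?_
    rw [intervalIntegral.integral_of_le zero_le_one, integral_Icc_eq_integral_Ioc]
  have hbdint : ∀ {E : Type} [NormedAddCommGroup E] (f : ℝ × ι → E), AEStronglyMeasurable f ν →
      (∃ M, ∀ l, ‖f l‖ ≤ M) → Integrable f ν := by
    intro E _ f hf ⟨M, hM⟩
    exact Integrable.of_bound hf M (Eventually.of_forall hM)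
  have hζb : ∃ M, ∀ l, ‖ζ l‖ ≤ M := by
    refine ⟨∑ i, ‖b i - a i‖, fun l => ?_⟩
    exact Finset.single_le_sum (f := fun i => ‖b i - a i‖) (fun i _ => norm_nonneg _) (Finset.mem_univ l.2)
  have hζi : Integrable ζ ν := hbdint ζ mζ.aestronglyMeasurable hζb
  obtain ⟨M, hM⟩ := hζb
  have hzb : ∃ M', ∀ l, ‖z l‖ ≤ M' := by
    refine ⟨(∑ i, ‖a i‖) + M, fun l => ?_⟩
    have h1 : ‖a l.2‖ ≤ ∑ i, ‖a i‖ :=
      Finset.single_le_sum (f := fun i => ‖a i‖) (fun i _ => norm_nonneg _) (Finset.mem_univ l.2)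
    have h2 : ‖(cl l.1 : ℂ) * (b l.2 - a l.2)‖ ≤ M := by
      rw [norm_mul, Complex.norm_real, Real.norm_eq_abs, abs_of_nonneg (cl_mem _).1]
      exact (mul_le_of_le_one_left (norm_nonneg _) (cl_mem _).2).trans (hM l)
    exact (norm_add_le _ _).trans (add_le_add h1 h2)
  obtain ⟨M', hM'⟩ := hzb
  have D : Cyc ν z ζ := by
    refine ⟨mz, mζ, hζi, ?_⟩
    intro g g' hg hg'
    have hmeas : AEStronglyMeasurable (fun l => g' (z l) (ζ l)) ν := by
      have h1 : Continuous fun p : ℂ × ℂ => g' p.1 p.2 :=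
        (hg'.comp continuous_fst).clm_apply continuous_snd
      exact (h1.measurable.comp (mz.prodMk mζ)).aestronglyMeasurable
    obtain ⟨B, hB⟩ := (isCompact_closedBall (0:ℂ) M').exists_bound_of_continuousOn hg'.continuousOn
    have hi : Integrable (fun l => g' (z l) (ζ l)) ν := by
      apply hbdint _ hmeas
      refine ⟨B * M, fun l => ?_⟩
      refine ((g' (z l)).le_opNorm _).trans ?_
      have hBl := hB (z l) (by rw [mem_closedBall, dist_zero_right]; exact hM' l)
      exact mul_le_mul hBl (hM l) (norm_nonneg _) ((norm_nonneg _).trans hBl)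
    rw [hint _ hi]
    rw [← hcyc g]
    refine Finset.sum_congr rfl fun i _ => ?_
    have hd : ∀ t ∈ uIcc (0:ℝ) 1, HasDerivAt (fun t : ℝ => g (a i + t * (b i - a i)))
        (g' (a i + t * (b i - a i)) (b i - a i)) t := by
      intro t _
      have h1 : HasDerivAt (fun t : ℝ => a i + t * (b i - a i)) (b i - a i) t := by
        have := ((Complex.ofRealCLM.hasDerivAt (x := t)).mul_const (b i - a i)).const_add (a i)
        simpa using this
      exact (hg _).comp_hasDerivAt t h1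
    have hc : Continuous fun t : ℝ => g' (a i + t * (b i - a i)) (b i - a i) :=
      (hg'.comp (by fun_prop)).clm_apply continuous_const
    have h2 := intervalIntegral.integral_eq_sub_of_hasDerivAt hd (hc.intervalIntegrable _ _)
    have h3 : ∫ t in (0:ℝ)..1, g' (z (t, i)) (ζ (t, i)) =
        ∫ t in (0:ℝ)..1, g' (a i + t * (b i - a i)) (b i - a i) := by
      apply intervalIntegral.integral_congr
      intro t ht
      rw [uIcc_of_le zero_le_one] at ht
      simp only [hz, hζ]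
      rw [cl_eq ht]
    rw [h3, h2]
    simp
  have key := H (ℝ × ι) ν z ζ D (fun l => hX l.2 _ (cl_mem l.1))
  have iF : Integrable (fun l => F (z l) * ζ l) ν := by
    obtain ⟨MF, hMF⟩ := hF.cont.bounded_above_of_compact_support hF.hasCompactSupport
    exact hζi.bdd_mul (c := MF) (hF.cont.measurable.comp mz).aestronglyMeasurable
      (Eventually.of_forall fun l => hMF _)
  have e1 : ∫ l, F (z l) * ζ l ∂ν = ∑ i, LI F (a i) (b i) := by
    rw [hint _ iF]
    refine Finset.sum_congr rfl fun i _ => ?_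
    unfold LI
    apply intervalIntegral.integral_congr
    intro t ht
    rw [uIcc_of_le zero_le_one] at ht
    simp only [hz, hζ]
    rw [cl_eq ht]
  have e2 : ∫ l, ‖ζ l‖ ∂ν = ∑ i, ‖b i - a i‖ := by
    rw [hint _ hζi.norm]
    refine Finset.sum_congr rfl fun i _ => ?_
    simp [hζ]
  rw [e1, e2] at key
  exact key

lemma LI_symm (F : ℂ → ℂ) (a b : ℂ) : LI F b a = - LI F a b := by
  unfold LI
  rw [← intervalIntegral.integral_neg]
  have h := intervalIntegral.integral_comp_sub_left (a := 0) (b := 1)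
    (fun t : ℝ => -(F (a + t * (b - a)) * (b - a))) 1
  simp only [sub_self, sub_zero] at h
  rw [← h]
  apply intervalIntegral.integral_congr
  intro t _
  simp only
  push_cast
  have : a + (1 - (t:ℂ)) * (b - a) = b + t * (a - b) := by ring
  rw [this]
  ring

lemma chain_bound {C : ℝ} {X : Set ℂ} {F : ℂ → ℂ} {R' ω η : ℝ} (hF : CC F R')
    (H : ∀ (Λ : Type) [MeasurableSpace Λ] (ν : Measure Λ) [IsFiniteMeasure ν] (z ζ : Λ → ℂ),
      Cyc ν z ζ → (∀ l, infDist (z l) X ≤ η) → ‖∫ l, F (z l) * ζ l ∂ν‖ ≤ C * ω * ∫ l, ‖ζ l‖ ∂ν)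
    {n m : ℕ} (p q : ℕ → ℂ) (h0 : p 0 = q 0) (h1 : p n = q m)
    (hp : ∀ i < n, ∀ t ∈ Icc (0:ℝ) 1, infDist (p i + t * (p (i + 1) - p i)) X ≤ η)
    (hq : ∀ i < m, ∀ t ∈ Icc (0:ℝ) 1, infDist (q i + t * (q (i + 1) - q i)) X ≤ η) :
    ‖(∑ i ∈ Finset.range n, LI F (p i) (p (i + 1))) - ∑ i ∈ Finset.range m, LI F (q i) (q (i + 1))‖ ≤
      C * ω * ((∑ i ∈ Finset.range n, ‖p (i + 1) - p i‖) + ∑ i ∈ Finset.range m, ‖q (i + 1) - q i‖) := by
  have key := poly_bound hF H (ι := Fin n ⊕ Fin m)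
    (a := Sum.elim (fun i => p i) (fun j => q (j + 1))) (b := Sum.elim (fun i => p (i + 1)) (fun j => q j))
    (by
      intro g
      rw [Fintype.sum_sum_type]
      simp only [Sum.elim_inl, Sum.elim_inr]
      rw [Fin.sum_univ_eq_sum_range (fun i => g (p (i + 1)) - g (p i)) n,
        Fin.sum_univ_eq_sum_range (fun i => g (q i) - g (q (i + 1))) m,
        Finset.sum_range_sub (fun i => g (p i)), Finset.sum_range_sub' (fun i => g (q i)), h0, h1]
      ring)
    (by
      rintro (i | j) t ht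
      · simp only [Sum.elim_inl]
        exact hp i i.2 t ht
      · simp only [Sum.elim_inr]
        have := hq j j.2 (1 - t) ⟨by linarith [ht.2], by linarith [ht.1]⟩
        have e : (q (j + 1) + t * (q j - q (j + 1)) : ℂ) = q j + ((1 - t : ℝ) : ℂ) * (q (j + 1) - q j) := by
          push_cast; ring
        rw [e]; exact this)
  rw [Fintype.sum_sum_type, Fintype.sum_sum_type] at key
  simp only [Sum.elim_inl, Sum.elim_inr] at key
  rw [Fin.sum_univ_eq_sum_range (fun i => LI F (p i) (p (i + 1))) n,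
    Fin.sum_univ_eq_sum_range (fun i => LI F (q (i + 1)) (q i)) m,
    Fin.sum_univ_eq_sum_range (fun i => ‖p (i + 1) - p i‖) n,
    Fin.sum_univ_eq_sum_range (fun i => ‖q i - q (i + 1)‖) m] at key
  have e1 : ∑ i ∈ Finset.range m, LI F (q (i + 1)) (q i) = - ∑ i ∈ Finset.range m, LI F (q i) (q (i + 1)) := by
    rw [← Finset.sum_neg_distrib]
    exact Finset.sum_congr rfl fun i _ => LI_symm F _ _
  have e2 : ∑ i ∈ Finset.range m, ‖q i - q (i + 1)‖ = ∑ i ∈ Finset.range m, ‖q (i + 1) - q i‖ :=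
    Finset.sum_congr rfl fun i _ => norm_sub_rev _ _
  rw [e1, e2, ← sub_eq_add_neg] at key
  exact key

lemma LI_eq_sub {F f : ℂ → ℂ} {U : Set ℂ} (hU : IsOpen U) (hf : DifferentiableOn ℂ f U)
    (hF : Continuous F) (hFf : ∀ u ∈ U, F u = deriv f u) {a b : ℂ}
    (hab : ∀ t ∈ Icc (0:ℝ) 1, a + t * (b - a) ∈ U) : LI F a b = f b - f a := by
  unfold LI
  have hd : ∀ t ∈ uIcc (0:ℝ) 1, HasDerivAt (fun t : ℝ => f (a + t * (b - a)))
      (F (a + t * (b - a)) * (b - a)) t := by
    intro t ht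
    rw [uIcc_of_le zero_le_one] at ht
    have h1 : HasDerivAt (fun t : ℝ => a + t * (b - a)) (b - a) t := by
      have := ((Complex.ofRealCLM.hasDerivAt (x := t)).mul_const (b - a)).const_add a
      simpa using this
    have hm := hab t ht
    have h2 : HasDerivAt f (F (a + t * (b - a))) (a + t * (b - a)) := by
      rw [hFf _ hm]
      exact ((hf _ hm).differentiableAt (hU.mem_nhds hm)).hasDerivAt
    exact h2.comp_of_eq t h1 rfl
  have hc : Continuous fun t : ℝ => F (a + t * (b - a)) * (b - a) :=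
    (hF.comp (by fun_prop)).mul continuous_const
  rw [intervalIntegral.integral_eq_sub_of_hasDerivAt hd (hc.intervalIntegrable _ _)]
  simp

end Pool.Agent.Helper57.Reg
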